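import Pool.Agent.N905.FM.Fac

/-! The bound for one class. -/

set_option autoImplicit false

namespace Pool.Agent.N905.FM

open Finset Pool.Agent.TH930.EBQ Pool.Agent.TH930.HW

lemma exists_g (K o : ℕ) : ∃ g : ℤ, (2 : ℤ) ^ K ∣ 3 ^ o * g - 1 := by
  have hc : IsCoprime ((3 : ℤ) ^ o) (2 ^ K) := by
    apply IsCoprime.pow
    rw [Int.isCoprime_iff_gcd_eq_one]; norm_num
  obtain ⟨a, b, hab⟩ := hc
  refine ⟨a, -b, ?_⟩
  linear_combination hab

lemma rho_lower : 89 * Real.log 3 ≤ 262 * Real.log (61 / 42) := by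
  have h : (3 : ℝ) ^ 89 ≤ (61 / 42) ^ 262 := by
    rw [div_pow, le_div_iff₀ (by positivity)]
    exact_mod_cast nat3
  have h2 := Real.log_le_log (by positivity) h
  rw [Real.log_pow, Real.log_pow] at h2
  exact_mod_cast h2

lemma rho_pow {o Q l : ℕ} (hQ : 1 ≤ Q) {H : ℝ} (hH : 1 ≤ H) (h : H * 2 ^ (4 * l) ≤ Q * 3 ^ o) :
    Real.exp (l * (Real.log 2 * (356 / 262))) * H ^ (89 / 262 : ℝ) ≤ Q * (61 / 42) ^ o := by
  have hQR : (1 : ℝ) ≤ Q := by exact_mod_cast hQ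
  have hH0 : 0 < H := by linarith
  have h2 := Real.log_le_log (by positivity) h
  rw [Real.log_mul hH0.ne' (by positivity), Real.log_pow, Real.log_mul (by positivity) (by positivity),
    Real.log_pow] at h2
  push_cast at h2
  have h3 := Real.log_nonneg hQR
  have h3' := Real.log_nonneg hH
  have h4 := rho_lower
  have ho : (0 : ℝ) ≤ o := Nat.cast_nonneg o
  have h5 : (Q : ℝ) * (61 / 42) ^ o = Real.exp (Real.log Q + o * Real.log (61 / 42)) := by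
    rw [Real.exp_add, Real.exp_log (by positivity), Real.exp_nat_mul, Real.exp_log (by norm_num)]
  rw [h5, Real.rpow_def_of_pos hH0, ← Real.exp_add]
  apply Real.exp_le_exp.2
  have h6 : (o : ℝ) * (89 * Real.log 3) ≤ o * (262 * Real.log (61 / 42)) :=
    mul_le_mul_of_nonneg_left h4 ho
  have h7 : 89 * (Real.log H + 4 * (l : ℝ) * Real.log 2) ≤ 89 * (Real.log Q + o * Real.log 3) := by
    linarith
  nlinarith

lemma Gr_exp (l : ℕ) : Gr ^ l = Real.exp (l * (Real.log 2 * (6784 / 1310))) := by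
  unfold Gr
  rw [Real.rpow_def_of_pos (by norm_num), ← Real.exp_nat_mul]
  congr 1
  ring

/-- THE BOUND FOR ONE CLASS -/
theorem class_bound {δ : ℝ} (hδ : 0 < δ) (hδ1 : δ ≤ 1) : ∃ N0 : ℕ, ∀ l : ℕ, 3 ≤ l → N0 ≤ 4 * l →
    ∀ k : ℤ, Odd k → ∀ Q : ℕ, 1 ≤ Q → ∀ H : ℝ, 1 ≤ H → ∀ q1 q2 q3 q4 : ℕ × (ℕ × ℕ), ∀ (u : ℤ) (B : Finset ℤ),
    (∀ x ∈ B, |x - u| ≤ 2 ^ (3 * l) ∧ (2 ^ l ≤ Q * 3 ^ ones (wd k l x) ∧
        H * 2 ^ (4 * l) ≤ (Q : ℝ) * 3 ^ ones (wd k (4 * l) x)) ∧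
      wd k l x ∈ cls l q1 ∧ wd k l ((T k)^[l] x) ∈ cls l q2 ∧
      wd k l ((T k)^[l + l] x) ∈ cls l q3 ∧ wd k l ((T k)^[l + l + l] x) ∈ cls l q4) →
    (B.card : ℝ) ≤ 2304 * l * Q ^ 2 * |(k : ℝ)| * Real.exp (δ * ((4 * l : ℕ) : ℝ)) *
      (Real.exp (l * (Real.log 2 * (3694 / 1310))) / H ^ (89 / 262 : ℝ)) := by
  classical
  obtain ⟨N0, hmom⟩ := moment hδ hδ1
  refine ⟨N0, ?_⟩
  intro l hl hN k hk Q hQ H hH ⟨t1, r1, s1⟩ ⟨t2, r2, s2⟩ ⟨t3, r3, s3⟩ ⟨t4, r4, s4⟩ u B hB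
  have hQR : (1 : ℝ) ≤ Q := by exact_mod_cast hQ
  have hH0 : 0 < H := by linarith
  have hHc : 0 < H ^ (89 / 262 : ℝ) := Real.rpow_pos_of_pos hH0 _
  rcases B.eq_empty_or_nonempty with h0 | ⟨x0, hx0⟩
  · rw [h0, card_empty, Nat.cast_zero]
    positivity
  obtain ⟨-, hpre, m1, m2, m3, m4⟩ := hB x0 hx0
  set C1 := cls l (t1, (r1, s1)) with hC1
  set C2 := cls l (t2, (r2, s2)) with hC2
  set C3 := cls l (t3, (r3, s3)) with hC3
  set C4 := cls l (t4, (r4, s4)) with hC4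
  set o1 := r1 + s1 with ho1
  set o2 := r2 + s2 with ho2
  set o3 := r3 + s3 with ho3
  set o4 := r4 + s4 with ho4
  have len1 : ∀ v ∈ C1, v.length = l ∧ ones v = o1 := fun v hv => ⟨(cls_spec hv).1, (cls_spec hv).2.1⟩
  have len2 : ∀ v ∈ C2, v.length = l ∧ ones v = o2 := fun v hv => ⟨(cls_spec hv).1, (cls_spec hv).2.1⟩
  have len3 : ∀ v ∈ C3, v.length = l ∧ ones v = o3 := fun v hv => ⟨(cls_spec hv).1, (cls_spec hv).2.1⟩
  have len4 : ∀ v ∈ C4, v.length = l ∧ ones v = o4 := fun v hv => ⟨(cls_spec hv).1, (cls_spec hv).2.1⟩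
  have w1 : ones (wd k l x0) = o1 := (len1 _ m1).2
  have w2 : ones (wd k (l + l) x0) = o1 + o2 := by
    rw [wd_append, ones_append, w1, (len2 _ m2).2]
  have w3 : ones (wd k (l + l + l) x0) = o1 + o2 + o3 := by
    rw [wd_append, ones_append, w2, (len3 _ m3).2]
  have w4 : ones (wd k (l + l + l + l) x0) = o1 + o2 + o3 + o4 := by
    rw [wd_append, ones_append, w3, (len4 _ m4).2]
  have b1 := ones_le_length (wd k l x0)
  have b2 := ones_le_length (wd k (l + l) x0)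
  have b3 := ones_le_length (wd k (l + l + l) x0)
  have b4 := ones_le_length (wd k (l + l + l + l) x0)
  rw [wd_length] at b1 b2 b3 b4
  obtain ⟨c1, c4⟩ := hpre
  rw [show 4 * l = l + l + l + l by ring, w4] at c4
  rw [w1] at c1 b1
  rw [w2] at b2
  rw [w3] at b3
  rw [w4] at b4
  have d1 : (2 : ℝ) ^ l ≤ Q * 3 ^ o1 := by exact_mod_cast c1
  have mono : ∀ o : ℕ, o1 ≤ o → (2 : ℝ) ^ l ≤ Q * 3 ^ o := by
    intro o ho
    refine d1.trans (mul_le_mul_of_nonneg_left ?_ (by linarith))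
    exact pow_le_pow_right₀ (by norm_num) ho
  have d2 := mono (o1 + o2) (by omega)
  have d3 := mono (o1 + o2 + o3) (by omega)
  have d4 := mono (o1 + o2 + o3 + o4) (by omega)
  obtain ⟨g, hg⟩ := exists_g (4 * l) (o1 + o2 + o3 + o4)
  set R : ℕ := 2 ^ (l - 3) with hR
  have hR0 : 0 < R := by rw [hR]; positivity
  have hR8 : 8 * R = 2 ^ l := by
    rw [hR, show (8 : ℕ) = 2 ^ 3 by norm_num, ← pow_add]
    congr 1
    omega
  set S := (C1 ×ˢ (C2 ×ˢ (C3 ×ˢ C4))).image cat4 with hS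
  have hSK : S ⊆ words (4 * l) := by
    intro v hv
    rw [hS, mem_image] at hv
    obtain ⟨t, ht, rfl⟩ := hv
    rw [mem_product, mem_product, mem_product] at ht
    rw [mem_words]
    unfold cat4
    simp only [List.length_append]
    rw [(len1 _ ht.1).1, (len2 _ ht.2.1).1, (len3 _ ht.2.2.1).1, (len4 _ ht.2.2.2).1]
    omega
  have hSo : ∀ v ∈ S, ones v = o1 + o2 + o3 + o4 := by
    intro v hv
    rw [hS, mem_image] at hv
    obtain ⟨t, ht, rfl⟩ := hv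
    rw [mem_product, mem_product, mem_product] at ht
    unfold cat4
    rw [ones_append, ones_append, ones_append, (len1 _ ht.1).2, (len2 _ ht.2.1).2, (len3 _ ht.2.2.1).2,
      (len4 _ ht.2.2.2).2]
    omega
  have hcount := count_four hk (K := 4 * l) hR0 S hSK hSo hg u B (by
    intro x hx
    obtain ⟨hx1, -, e1, e2, e3, e4⟩ := hB x hx
    constructor
    · have h8 : (8 * R : ℤ) = 2 ^ l := by exact_mod_cast hR8
      rw [h8, show 4 * l = 3 * l + l by ring, pow_add]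
      exact mul_le_mul_of_nonneg_right hx1 (by positivity)
    · rw [hS, mem_image]
      refine ⟨(wd k l x, (wd k l ((T k)^[l] x), (wd k l ((T k)^[l + l] x),
        wd k l ((T k)^[l + l + l] x)))), by simp [e1, e2, e3, e4], ?_⟩
      unfold cat4
      simp only
      rw [show 4 * l = l + l + l + l by ring, wd_append, wd_append, wd_append, List.append_assoc,
        List.append_assoc])
  -- the four moments
  set X : ℝ := 72 * l * Q * |(k : ℝ)| * Real.exp (δ * ((4 * l : ℕ) : ℝ)) with hX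
  have hX0 : 0 ≤ X := by rw [hX]; positivity
  have a1 : (2 : ℤ) ^ (4 * l) ∣ 3 ^ o1 * (-k * g * 3 ^ (o2 + (o3 + o4))) + k := by
    have : 3 ^ o1 * (-k * g * 3 ^ (o2 + (o3 + o4))) + k = (-k) * (3 ^ (o1 + o2 + o3 + o4) * g - 1) := by
      rw [show o1 + o2 + o3 + o4 = o1 + (o2 + (o3 + o4)) by ring, pow_add (3 : ℤ) o1]; ring
    rw [this]
    exact hg.mul_left _
  have a2 : (2 : ℤ) ^ (3 * l) ∣ 3 ^ (o1 + o2) * (-k * g * 3 ^ (o3 + o4)) + k := by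
    have : 3 ^ (o1 + o2) * (-k * g * 3 ^ (o3 + o4)) + k = (-k) * (3 ^ (o1 + o2 + o3 + o4) * g - 1) := by
      rw [show o1 + o2 + o3 + o4 = (o1 + o2) + (o3 + o4) by ring, pow_add (3 : ℤ) (o1 + o2)]; ring
    rw [this]
    exact (dvd_trans (pow_dvd_pow 2 (by omega)) hg).mul_left _
  have a3 : (2 : ℤ) ^ (2 * l) ∣ 3 ^ (o1 + o2 + o3) * (-k * g * 3 ^ o4) + k := by
    have : 3 ^ (o1 + o2 + o3) * (-k * g * 3 ^ o4) + k = (-k) * (3 ^ (o1 + o2 + o3 + o4) * g - 1) := by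
      rw [pow_add (3 : ℤ) (o1 + o2 + o3)]; ring
    rw [this]
    exact (dvd_trans (pow_dvd_pow 2 (by omega)) hg).mul_left _
  have a4 : (2 : ℤ) ^ l ∣ 3 ^ (o1 + o2 + o3 + o4) * (-k * g) + k := by
    have : 3 ^ (o1 + o2 + o3 + o4) * (-k * g) + k = (-k) * (3 ^ (o1 + o2 + o3 + o4) * g - 1) := by
      ring
    rw [this]
    exact (dvd_trans (pow_dvd_pow 2 (by omega)) hg).mul_left _
  have M1 := hmom (4 * l) hN k hk l (3 * l) (4 * l) o1 R (by omega) (by omega) le_rfl (by omega)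
    hR8.le _ a1 Q hQR d1 t1 r1 s1
  have M2 := hmom (4 * l) hN k hk l (2 * l) (3 * l) (o1 + o2) R (by omega) (by omega) (by omega)
    (by omega) hR8.le _ a2 Q hQR d2 t2 r2 s2
  have M3 := hmom (4 * l) hN k hk l l (2 * l) (o1 + o2 + o3) R (by omega) (by omega) (by omega)
    (by omega) hR8.le _ a3 Q hQR d3 t3 r3 s3
  have M4 := hmom (4 * l) hN k hk l 0 l (o1 + o2 + o3 + o4) R (by omega) (by omega) (by omega)
    (by omega) hR8.le _ a4 Q hQR d4 t4 r4 s4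
  rw [← hX, ← hC1] at M1
  rw [← hX, ← hC2] at M2
  rw [← hX, ← hC3] at M3
  rw [← hX, ← hC4] at M4
  rw [sum_congr rfl (fun ξ _ => factor4 (-k * g) C1 C2 C3 C4 (fun v hv => (len1 v hv).1) len2 len3 len4 ξ)]
    at hcount
  have hHol := holder4 R
    (fun ξ => ‖∑ v ∈ C1, e (ξ * (((-k * g * 3 ^ (o2 + (o3 + o4)) * cw v : ℤ) : ℝ) / 2 ^ (4 * l)))‖)
    (fun ξ => ‖∑ v ∈ C2, e (ξ * (((-k * g * 3 ^ (o3 + o4) * cw v : ℤ) : ℝ) / 2 ^ (3 * l)))‖)
    (fun ξ => ‖∑ v ∈ C3, e (ξ * (((-k * g * 3 ^ o4 * cw v : ℤ) : ℝ) / 2 ^ (2 * l)))‖)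
    (fun ξ => ‖∑ v ∈ C4, e (ξ * (((-k * g * cw v : ℤ) : ℝ) / 2 ^ l))‖)
  set Sm : ℝ := ∑ ξ ∈ range R,
      ‖∑ v ∈ C1, e (ξ * (((-k * g * 3 ^ (o2 + (o3 + o4)) * cw v : ℤ) : ℝ) / 2 ^ (4 * l)))‖ *
      ‖∑ v ∈ C2, e (ξ * (((-k * g * 3 ^ (o3 + o4) * cw v : ℤ) : ℝ) / 2 ^ (3 * l)))‖ *
      (‖∑ v ∈ C3, e (ξ * (((-k * g * 3 ^ o4 * cw v : ℤ) : ℝ) / 2 ^ (2 * l)))‖ *
      ‖∑ v ∈ C4, e (ξ * (((-k * g * cw v : ℤ) : ℝ) / 2 ^ l))‖) with hSm
  have hG := Gr_pos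
  have hbig : Sm ≤ X * (Gr ^ l / (61 / 42) ^ (o1 + o2 + o3 + o4)) := by
    apply le_of_pow_le_pow_left₀ (n := 4) (by norm_num) (by positivity)
    have n2 : 0 ≤ ∑ ξ ∈ range R,
      ‖∑ v ∈ C2, e (ξ * (((-k * g * 3 ^ (o3 + o4) * cw v : ℤ) : ℝ) / 2 ^ (3 * l)))‖ ^ 4 :=
      sum_nonneg (fun _ _ => by positivity)
    have n3 : 0 ≤ ∑ ξ ∈ range R,
      ‖∑ v ∈ C3, e (ξ * (((-k * g * 3 ^ o4 * cw v : ℤ) : ℝ) / 2 ^ (2 * l)))‖ ^ 4 :=
      sum_nonneg (fun _ _ => by positivity)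
    have n4 : 0 ≤ ∑ ξ ∈ range R, ‖∑ v ∈ C4, e (ξ * (((-k * g * cw v : ℤ) : ℝ) / 2 ^ l))‖ ^ 4 :=
      sum_nonneg (fun _ _ => by positivity)
    refine (hHol.trans (mul_le_mul (mul_le_mul M1 M2 n2 (by positivity))
      (mul_le_mul M3 M4 n4 (by positivity)) (mul_nonneg n3 n4) (by positivity))).trans (le_of_eq ?_)
    rw [show o1 + o2 + o3 + o4 = (r1 + s1) + (r2 + s2) + (r3 + s3) + (r4 + s4) by omega]
    rw [pow_add _ (r1 + s1 + (r2 + s2) + (r3 + s3)), pow_add _ (r1 + s1 + (r2 + s2)),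
      pow_add _ (r1 + s1)]
    rw [pow_mul' _ 4 (r1 + s1), pow_mul' _ 4 (r2 + s2), pow_mul' _ 4 (r3 + s3), pow_mul' _ 4 (r4 + s4)]
    ring
  have h4R : (4 : ℝ) / R = 32 / 2 ^ l := by
    have : (8 : ℝ) * R = 2 ^ l := by exact_mod_cast hR8
    rw [← this]
    have hRR : (0 : ℝ) < R := by exact_mod_cast hR0
    field_simp
    norm_num
  have hrho := rho_pow hQ (o := o1 + o2 + o3 + o4) (l := l) hH (by
    have : 4 * l = l + l + l + l := by ring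
    rw [this]
    exact c4)
  have hdiv : Gr ^ l / (61 / 42) ^ (o1 + o2 + o3 + o4) ≤
      Q * (Real.exp (l * (Real.log 2 * (6784 / 1310 - 356 / 262))) / H ^ (89 / 262 : ℝ)) := by
    rw [div_le_iff₀ (by positivity), Gr_exp]
    have e1 : Real.exp (l * (Real.log 2 * (6784 / 1310))) =
        Real.exp (l * (Real.log 2 * (6784 / 1310 - 356 / 262))) *
          Real.exp (l * (Real.log 2 * (356 / 262))) := by
      rw [← Real.exp_add]; congr 1; ring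
    rw [e1]
    have hrho' : Real.exp (l * (Real.log 2 * (356 / 262))) ≤
        Q * (61 / 42) ^ (o1 + o2 + o3 + o4) / H ^ (89 / 262 : ℝ) := by
      rw [le_div_iff₀ hHc]
      exact hrho
    calc Real.exp (l * (Real.log 2 * (6784 / 1310 - 356 / 262))) *
          Real.exp (l * (Real.log 2 * (356 / 262)))
        ≤ Real.exp (l * (Real.log 2 * (6784 / 1310 - 356 / 262))) *
          (Q * (61 / 42) ^ (o1 + o2 + o3 + o4) / H ^ (89 / 262 : ℝ)) :=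
          mul_le_mul_of_nonneg_left hrho' (Real.exp_pos _).le
      _ = _ := by ring
  have h2l : (2 : ℝ) ^ l = Real.exp (l * Real.log 2) := by
    rw [Real.exp_nat_mul, Real.exp_log (by norm_num)]
  calc (B.card : ℝ) ≤ 4 / R * Sm := hcount
    _ ≤ 32 / 2 ^ l * (X * (Q * (Real.exp (l * (Real.log 2 * (6784 / 1310 - 356 / 262))) /
          H ^ (89 / 262 : ℝ)))) := by
        rw [h4R]
        apply mul_le_mul_of_nonneg_left _ (by positivity)
        exact hbig.trans (mul_le_mul_of_nonneg_left hdiv hX0)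
    _ = 2304 * l * Q ^ 2 * |(k : ℝ)| * Real.exp (δ * ((4 * l : ℕ) : ℝ)) *
        (Real.exp (l * (Real.log 2 * (6784 / 1310 - 356 / 262))) / 2 ^ l / H ^ (89 / 262 : ℝ)) := by
        rw [hX]; ring
    _ = _ := by
        congr 2
        rw [h2l, ← Real.exp_sub]
        congr 1
        ring

end Pool.Agent.N905.FM
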