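import Pool.Agent.TH930.EBQ.Four

/-! Fourth moments of exponential sums over few frequencies, by additive quadruples. -/

set_option autoImplicit false

namespace Pool.Agent.N905.FM

open Finset Pool.Agent.TH930.EBQ

variable {ι : Type*}

/-- the difference of a quadruple -/
def dq (f : ι → ℤ) (q : (ι × ι) × (ι × ι)) : ℤ := f q.1.1 + f q.1.2 - (f q.2.1 + f q.2.2)

/-- the quadruples -/
def qd (C : Finset ι) : Finset ((ι × ι) × (ι × ι)) := (C ×ˢ C) ×ˢ (C ×ˢ C)

open Classical in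
/-- the fourth moment over few frequencies -/
theorem fourth (C : Finset ι) (f : ι → ℤ) (a : ℤ) {B i l R : ℕ} (hB : B = i + l)
    (hR : 8 * R ≤ 2 ^ l) :
    ∑ ξ ∈ range R, ‖∑ v ∈ C, e (ξ * (((a * f v : ℤ) : ℝ) / 2 ^ B))‖ ^ 4 ≤
      2 ^ (l + 1) * (((qd C).filter (fun q => ∃ x : ℤ, |x| < 2 ^ i ∧
        (2 : ℤ) ^ B ∣ x - a * dq f q)).card : ℝ) := by
  set H : ℕ := 2 ^ i with hH
  have hH0 : (0 : ℝ) < H := by rw [hH]; positivity
  have h2B : (0 : ℝ) < 2 ^ B := by positivity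
  have hBH : (2 : ℝ) ^ B = H * 2 ^ l := by rw [hH, hB, pow_add]; push_cast; ring
  have hHB : H ≤ 2 ^ B := by rw [hH, hB]; exact Nat.pow_le_pow_right (by norm_num) (by omega)
  set S : Finset (ℕ × (ι × ι)) := range H ×ˢ (C ×ˢ C) with hS
  set b : ℕ × (ι × ι) → ℤ := fun p => (p.1 : ℤ) + a * (f p.2.1 + f p.2.2) with hb
  -- factorization
  have hfac : ∀ ξ : ℕ, ∑ p ∈ S, e (ξ * ((b p : ℝ) / ((2 ^ B : ℕ) : ℝ))) =
      (∑ h ∈ range H, e (h * ((ξ : ℝ) / 2 ^ B))) *
        ((∑ v ∈ C, e (ξ * (((a * f v : ℤ) : ℝ) / 2 ^ B))) *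
          ∑ v ∈ C, e (ξ * (((a * f v : ℤ) : ℝ) / 2 ^ B))) := by
    intro ξ
    rw [hS, sum_product, sum_mul_sum (s := C), sum_mul]
    apply sum_congr rfl
    intro h _
    rw [sum_product, mul_sum]
    apply sum_congr rfl
    intro u _
    rw [mul_sum]
    apply sum_congr rfl
    intro v _
    rw [← e_add, ← e_add]
    congr 1
    rw [hb]
    push_cast
    ring
  -- one frequency
  have h1 : ∀ ξ ∈ range R, ‖∑ v ∈ C, e (ξ * (((a * f v : ℤ) : ℝ) / 2 ^ B))‖ ^ 4 ≤
      2 / (H : ℝ) ^ 2 * ‖∑ p ∈ S, e (ξ * ((b p : ℝ) / ((2 ^ B : ℕ) : ℝ)))‖ ^ 2 := by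
    intro ξ hξ
    rw [mem_range] at hξ
    have h2 : (H : ℝ) * |(ξ : ℝ) / 2 ^ B| ≤ 1 / 8 := by
      rw [abs_of_nonneg (by positivity), hBH]
      have h3 : (8 : ℝ) * ξ ≤ 2 ^ l := by
        have : 8 * ξ ≤ 2 ^ l := by omega
        exact_mod_cast this
      rw [mul_div_assoc', div_le_div_iff₀ (by positivity) (by norm_num)]
      nlinarith
    have h4 := fejer h2
    rw [hfac, norm_mul, norm_mul, mul_pow, mul_pow]
    set z := ‖∑ v ∈ C, e (ξ * (((a * f v : ℤ) : ℝ) / 2 ^ B))‖ with hz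
    set w := ‖∑ h ∈ range H, e (h * ((ξ : ℝ) / 2 ^ B))‖ with hw
    have h5 : 1 ≤ 2 / (H : ℝ) ^ 2 * w ^ 2 := by
      rw [div_mul_eq_mul_div, le_div_iff₀ (by positivity)]
      linarith
    calc z ^ 4 = 1 * z ^ 4 := (one_mul _).symm
      _ ≤ (2 / (H : ℝ) ^ 2 * w ^ 2) * z ^ 4 := mul_le_mul_of_nonneg_right h5 (by positivity)
      _ = _ := by ring
  -- all frequencies
  have hR2 : R ≤ 2 ^ B := by
    have : 2 ^ l ≤ 2 ^ B := Nat.pow_le_pow_right (by norm_num) (by omega)
    omega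
  have h2 : ∑ ξ ∈ range R, ‖∑ v ∈ C, e (ξ * (((a * f v : ℤ) : ℝ) / 2 ^ B))‖ ^ 4 ≤
      2 / (H : ℝ) ^ 2 * ∑ ξ ∈ range (2 ^ B), ‖∑ p ∈ S, e (ξ * ((b p : ℝ) / ((2 ^ B : ℕ) : ℝ)))‖ ^ 2 := by
    refine (sum_le_sum h1).trans ?_
    rw [← mul_sum]
    apply mul_le_mul_of_nonneg_left _ (by positivity)
    apply sum_le_sum_of_subset_of_nonneg
    · intro x hx; rw [mem_range] at hx ⊢; omega
    · intro _ _ _; positivity
  refine h2.trans ?_
  rw [parseval S b (N := 2 ^ B) (by positivity)]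
  set Qs := (qd C).filter (fun q => ∃ x : ℤ, |x| < 2 ^ i ∧ (2 : ℤ) ^ B ∣ x - a * dq f q) with hQs
  have h3 : ((S ×ˢ S).filter (fun p => ((2 ^ B : ℕ) : ℤ) ∣ b p.1 - b p.2)).card ≤ H * Qs.card := by
    have e1 : H * Qs.card = (range H ×ˢ Qs).card := by rw [card_product, card_range]
    rw [e1]
    apply card_le_card_of_injOn (fun p => (p.2.1, (p.1.2, p.2.2)))
    · intro p hp
      rw [mem_coe, mem_filter, mem_product, hS, mem_product (p := p.1), mem_product (p := p.2),
        mem_range, mem_range] at hp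
      obtain ⟨⟨⟨hp1, hp2⟩, hp3, hp4⟩, hp5⟩ := hp
      rw [mem_coe, mem_product, mem_range]
      refine ⟨hp3, ?_⟩
      rw [hQs, mem_filter]
      refine ⟨by unfold qd; rw [mem_product]; exact ⟨hp2, hp4⟩, (p.2.1 : ℤ) - p.1.1, ?_, ?_⟩
      · have a1 : (p.1.1 : ℤ) < 2 ^ i := by
          have := hp1; rw [hH] at this; exact_mod_cast this
        have a2 : (p.2.1 : ℤ) < 2 ^ i := by
          have := hp3; rw [hH] at this; exact_mod_cast this
        have a3 : (0 : ℤ) ≤ p.1.1 := Int.natCast_nonneg _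
        have a4 : (0 : ℤ) ≤ p.2.1 := Int.natCast_nonneg _
        rw [abs_lt]; constructor <;> linarith
      · push_cast at hp5
        obtain ⟨t, ht⟩ := hp5
        refine ⟨-t, ?_⟩
        rw [hb] at ht
        simp only at ht
        unfold dq
        simp only
        linear_combination -ht
    · intro p hp q hq hpq
      rw [mem_coe, mem_filter, mem_product, hS, mem_product (p := p.1), mem_product (p := p.2),
        mem_range, mem_range] at hp
      rw [mem_coe, mem_filter, mem_product, hS, mem_product (p := q.1), mem_product (p := q.2),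
        mem_range, mem_range] at hq
      obtain ⟨⟨⟨hp1, hp2⟩, hp3, hp4⟩, hp5⟩ := hp
      obtain ⟨⟨⟨hq1, hq2⟩, hq3, hq4⟩, hq5⟩ := hq
      simp only [Prod.mk.injEq] at hpq
      obtain ⟨e2, e3, e4⟩ := hpq
      have h4 : ((2 ^ B : ℕ) : ℤ) ∣ (p.1.1 : ℤ) - q.1.1 := by
        have h5 := dvd_sub hp5 hq5
        rw [hb] at h5
        simp only at h5
        rw [e2, e3, e4] at h5
        have h6 : (p.1.1 : ℤ) + a * (f q.1.2.1 + f q.1.2.2) - ((q.2.1 : ℤ) + a * (f q.2.2.1 + f q.2.2.2)) -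
            ((q.1.1 : ℤ) + a * (f q.1.2.1 + f q.1.2.2) - ((q.2.1 : ℤ) + a * (f q.2.2.1 + f q.2.2.2))) =
            (p.1.1 : ℤ) - q.1.1 := by ring
        rwa [h6] at h5
      have h5 : (p.1.1 : ℤ) - q.1.1 = 0 := by
        apply Int.eq_zero_of_abs_lt_dvd h4
        have a1 : (p.1.1 : ℤ) < ((2 ^ B : ℕ) : ℤ) := by exact_mod_cast lt_of_lt_of_le hp1 hHB
        have a2 : (q.1.1 : ℤ) < ((2 ^ B : ℕ) : ℤ) := by exact_mod_cast lt_of_lt_of_le hq1 hHB
        have a3 : (0 : ℤ) ≤ p.1.1 := Int.natCast_nonneg _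
        have a4 : (0 : ℤ) ≤ q.1.1 := Int.natCast_nonneg _
        rw [abs_lt]; constructor <;> linarith
      have h6 : p.1.1 = q.1.1 := by omega
      exact Prod.ext (Prod.ext h6 e3) (Prod.ext e2 e4)
  have h4 : (((S ×ˢ S).filter (fun p => ((2 ^ B : ℕ) : ℤ) ∣ b p.1 - b p.2)).card : ℝ) ≤ H * Qs.card := by
    exact_mod_cast h3
  have h5 : ((2 ^ B : ℕ) : ℝ) = H * 2 ^ l := by rw [← hBH]; push_cast; rfl
  rw [h5]
  calc 2 / (H : ℝ) ^ 2 * (H * 2 ^ l *
        (((S ×ˢ S).filter (fun p => ((2 ^ B : ℕ) : ℤ) ∣ b p.1 - b p.2)).card : ℝ))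
      ≤ 2 / (H : ℝ) ^ 2 * (H * 2 ^ l * (H * Qs.card)) := by
        apply mul_le_mul_of_nonneg_left _ (by positivity)
        exact mul_le_mul_of_nonneg_left h4 (by positivity)
    _ = 2 ^ (l + 1) * (Qs.card : ℝ) := by
        rw [pow_succ]
        field_simp
        ring

open Classical in
/-- the number of quadruples with a given difference is largest for the difference zero -/
theorem shift (C : Finset ι) (f : ι → ℤ) (t0 : ℤ) :
    ((qd C).filter (fun q => dq f q = t0)).card ≤ ((qd C).filter (fun q => dq f q = 0)).card := by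
  set s : ι × ι → ℤ := fun p => f p.1 + f p.2 with hs
  set N : ℤ → ℕ := fun t => ((C ×ˢ C).filter (fun p => s p = t)).card with hN
  set T := (C ×ˢ C).image s with hT
  have key : ∀ t1 : ℤ, ((qd C).filter (fun q => dq f q = t1)).card = ∑ t ∈ T, N t * N (t - t1) := by
    intro t1
    rw [card_eq_sum_card_fiberwise (f := fun q => s q.1) (t := T)]
    · apply sum_congr rfl
      intro t _
      rw [hN]
      simp only
      rw [← card_product]
      congr 1
      ext q
      unfold qd dq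
      simp only [mem_filter, mem_product]
      constructor
      · rintro ⟨⟨⟨h1, h2⟩, h3⟩, h4⟩
        refine ⟨⟨h1, h4⟩, h2, ?_⟩
        rw [hs] at h4 ⊢
        simp only at h4 ⊢
        omega
      · rintro ⟨⟨h1, h4⟩, h2, h3⟩
        refine ⟨⟨⟨h1, h2⟩, ?_⟩, h4⟩
        rw [hs] at h4 h3
        simp only at h4 h3
        omega
    · intro q hq
      unfold qd at hq
      rw [mem_coe, mem_filter, mem_product] at hq
      rw [mem_coe, hT, mem_image]
      exact ⟨q.1, hq.1.1, rfl⟩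
  have h0 : ∀ t : ℤ, t ∉ T → N t = 0 := by
    intro t ht
    rw [hN]
    simp only
    rw [card_eq_zero, filter_eq_empty_iff]
    intro p hp h
    apply ht
    rw [hT, mem_image]
    exact ⟨p, hp, h⟩
  have h1 : ∑ t ∈ T, N (t - t0) ^ 2 ≤ ∑ t ∈ T, N t ^ 2 := by
    calc ∑ t ∈ T, N (t - t0) ^ 2 = ∑ t ∈ T.filter (fun t => t - t0 ∈ T), N (t - t0) ^ 2 := by
          rw [sum_filter]
          apply sum_congr rfl
          intro t _
          split_ifs with h
          · rfl
          · rw [h0 _ h]; rfl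
      _ = ∑ t ∈ (T.filter (fun t => t - t0 ∈ T)).image (fun t => t - t0), N t ^ 2 := by
          rw [sum_image]
          intro x _ y _ h
          simp only at h
          omega
      _ ≤ _ := by
          apply sum_le_sum_of_subset
          intro t ht
          rw [mem_image] at ht
          obtain ⟨u, hu, rfl⟩ := ht
          exact (mem_filter.1 hu).2
  rw [key t0, key 0]
  have h2 : 2 * ∑ t ∈ T, N t * N (t - t0) ≤ ∑ t ∈ T, N t ^ 2 + ∑ t ∈ T, N (t - t0) ^ 2 := by
    rw [mul_sum, ← sum_add_distrib]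
    apply sum_le_sum
    intro t _
    have := two_mul_le_add_sq (N t) (N (t - t0))
    linarith
  have h3 : ∑ t ∈ T, N t * N (t - 0) = ∑ t ∈ T, N t ^ 2 := by
    apply sum_congr rfl
    intro t _
    rw [sub_zero, sq]
  rw [h3]
  omega

open Classical in
/-- the quadruples whose difference lies in a finite set -/
theorem count_set (C : Finset ι) (f : ι → ℤ) (P : (ι × ι) × (ι × ι) → Prop) (D : Finset ℤ)
    (hD : ∀ q ∈ qd C, P q → dq f q ∈ D) :
    ((qd C).filter P).card ≤ D.card * ((qd C).filter (fun q => dq f q = 0)).card := by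
  rw [card_eq_sum_card_fiberwise (f := fun q => dq f q) (t := D)]
  · have h1 : ∀ t ∈ D, ((qd C).filter P |>.filter (fun q => dq f q = t)).card ≤
        ((qd C).filter (fun q => dq f q = 0)).card := by
      intro t _
      refine (card_le_card ?_).trans (shift C f t)
      intro q hq
      rw [mem_filter, mem_filter] at hq
      rw [mem_filter]
      exact ⟨hq.1.1, hq.2⟩
    have := sum_le_card_nsmul D _ _ h1
    rwa [smul_eq_mul] at this
  · intro q hq
    rw [mem_coe, mem_filter] at hq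
    rw [mem_coe]
    exact hD q hq.1 hq.2

/-- well spaced sets of integers -/
theorem spacing (D : Finset ℤ) {M g : ℝ} (hg : 0 < g) (hM : 0 ≤ M) (h1 : ∀ z ∈ D, |(z : ℝ)| ≤ M)
    (h2 : ∀ z ∈ D, ∀ z' ∈ D, z ≠ z' → g ≤ |((z - z' : ℤ) : ℝ)|) : (D.card : ℝ) ≤ 2 * M / g + 1 := by
  have h3 : D.card ≤ (range (⌊2 * M / g⌋₊ + 1)).card := by
    apply card_le_card_of_injOn (fun z : ℤ => ⌊((z : ℝ) + M) / g⌋₊)
    · intro z hz
      rw [mem_coe, mem_range, Nat.lt_succ_iff]
      apply Nat.floor_le_floor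
      have := (abs_le.1 (h1 z hz)).2
      apply div_le_div_of_nonneg_right _ hg.le
      linarith
    · intro z hz z' hz' h
      by_contra hne
      have h4 := h2 z hz z' hz' hne
      simp only at h
      have a1 : 0 ≤ ((z : ℝ) + M) / g := div_nonneg (by have := (abs_le.1 (h1 z hz)).1; linarith) hg.le
      have a2 : 0 ≤ ((z' : ℝ) + M) / g := div_nonneg (by have := (abs_le.1 (h1 z' hz')).1; linarith) hg.le
      have b1 := Nat.floor_le a1
      have b2 := Nat.lt_floor_add_one (((z : ℝ) + M) / g)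
      have b3 := Nat.floor_le a2
      have b4 := Nat.lt_floor_add_one (((z' : ℝ) + M) / g)
      rw [h] at b1 b2
      have h5 : |((z : ℝ) + M) / g - ((z' : ℝ) + M) / g| < 1 := by
        rw [abs_lt]; constructor <;> linarith
      have h6 : ((z : ℝ) + M) / g - ((z' : ℝ) + M) / g = ((z - z' : ℤ) : ℝ) / g := by
        push_cast; ring
      rw [h6, abs_div, abs_of_pos hg, div_lt_one hg] at h5
      linarith
  rw [card_range] at h3
  have h4 : (D.card : ℝ) ≤ (⌊2 * M / g⌋₊ : ℝ) + 1 := by exact_mod_cast h3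
  have h5 : (⌊2 * M / g⌋₊ : ℝ) ≤ 2 * M / g := Nat.floor_le (by positivity)
  linarith

end Pool.Agent.N905.FM
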