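import Pool.Agent.TH930.HW.Ridout
import Pool.Agent.N905.FM.Quad

/-! One window: the fourth moment, with the theorem of Ridout. -/

set_option autoImplicit false

namespace Pool.Agent.N905.FM

open Finset Pool.Agent.TH930.EBQ Pool.Agent.TH930.HW

/-- no small multiples are close to multiples of `2 ^ B` -/
theorem gap {δ : ℝ} (hδ : 0 < δ) (hδ1 : δ ≤ 1) : ∃ N0 : ℕ, ∀ N : ℕ, N0 ≤ N → ∀ k : ℤ, Odd k →
    ∀ l i B L : ℕ, B = i + l → B ≤ N → L ≤ N → ∀ x d : ℤ, d ≠ 0 → |x| < 2 ^ (i + 1) →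
      (2 : ℤ) ^ B ∣ 3 ^ L * x + k * d → |(k : ℝ)| * |(d : ℝ)| * 2 ≤ 2 ^ l * Real.exp (-(δ * N)) →
      |(k : ℝ)| * |(d : ℝ)| ≤ 3 ^ L * Real.exp (-(δ * N)) → False := by
  haveI : Fact (Nat.Prime 3) := ⟨by norm_num⟩
  haveI : Fact (Nat.Prime 2) := ⟨by norm_num⟩
  obtain ⟨N0, h⟩ := ridout (p := 3) (q := 2) (by norm_num) hδ
  refine ⟨N0, ?_⟩
  intro N hN k hk l i B L hB hBN hLN x d hd hx hdvd h1 h2
  have hk0 : k ≠ 0 := by rintro rfl; simp at hk
  have hk1 : (1 : ℝ) ≤ |(k : ℝ)| := by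
    have : (1 : ℤ) ≤ |k| := Int.one_le_abs hk0
    exact_mod_cast this
  have hNR : (0 : ℝ) ≤ N := Nat.cast_nonneg N
  have hexp : Real.exp (-(δ * N)) ≤ 1 := by
    rw [Real.exp_le_one_iff]
    have : 0 ≤ δ * N := by positivity
    linarith
  have h2l : (0 : ℝ) < 2 ^ l := by positivity
  by_cases hx0 : x = 0
  · rw [hx0, mul_zero, zero_add] at hdvd
    have hc : IsCoprime ((2 : ℤ) ^ B) k := by
      apply IsCoprime.pow_left
      obtain ⟨t, rfl⟩ := hk
      exact ⟨-t, 1, by ring⟩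
    have h3 := hc.dvd_of_dvd_mul_left hdvd
    have h4 : (2 : ℤ) ^ B ≤ |d| := Int.le_of_dvd (abs_pos.2 hd) ((dvd_abs _ _).2 h3)
    have h5 : (2 : ℝ) ^ B ≤ |(d : ℝ)| := by exact_mod_cast h4
    have h6 : (2 : ℝ) ^ l ≤ 2 ^ B := pow_le_pow_right₀ (by norm_num) (by omega)
    have h7 : |(d : ℝ)| ≤ |(k : ℝ)| * |(d : ℝ)| := le_mul_of_one_le_left (abs_nonneg _) hk1
    nlinarith
  · have h3L : (0 : ℝ) < 3 ^ L := by positivity
    have hxR : |(x : ℝ)| ≤ 2 ^ (i + 1) := by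
      have : |x| ≤ 2 ^ (i + 1) := hx.le
      exact_mod_cast this
    apply h N hN L B ?_ ?_ (3 ^ L * x) (k * d) (mul_ne_zero (by positivity) hx0) (mul_ne_zero hk0 hd)
      (by exact_mod_cast dvd_mul_right _ _) (by exact_mod_cast hdvd)
    · push_cast
      rw [abs_mul, abs_of_pos h3L, abs_mul]
      have hB2 : (2 : ℝ) ^ B = 2 ^ i * 2 ^ l := by rw [hB, pow_add]
      calc 3 ^ L * |(x : ℝ)| * (|(k : ℝ)| * |(d : ℝ)|) ≤ 3 ^ L * 2 ^ (i + 1) * (|(k : ℝ)| * |(d : ℝ)|) := by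
            apply mul_le_mul_of_nonneg_right _ (by positivity)
            exact mul_le_mul_of_nonneg_left hxR h3L.le
        _ = 3 ^ L * 2 ^ i * (|(k : ℝ)| * |(d : ℝ)| * 2) := by ring
        _ ≤ 3 ^ L * 2 ^ i * (2 ^ l * Real.exp (-(δ * N))) :=
            mul_le_mul_of_nonneg_left h1 (by positivity)
        _ = _ := by rw [hB2]; ring
    · push_cast
      rw [abs_mul]
      exact h2
    · have : (L : ℝ) ≤ N := by exact_mod_cast hLN
      have hL : (0 : ℝ) ≤ L := Nat.cast_nonneg L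
      nlinarith
    · have : (B : ℝ) ≤ N := by exact_mod_cast hBN
      have hL : (0 : ℝ) ≤ B := Nat.cast_nonneg B
      nlinarith

open Classical in
/-- the fourth moment of one window -/
theorem window {δ : ℝ} (hδ : 0 < δ) (hδ1 : δ ≤ 1) : ∃ N0 : ℕ, ∀ N : ℕ, N0 ≤ N → ∀ k : ℤ, Odd k →
    ∀ l i B L R : ℕ, B = i + l → B ≤ N → L ≤ N → 8 * R ≤ 2 ^ l →
    ∀ a : ℤ, (2 : ℤ) ^ B ∣ 3 ^ L * a + k → ∀ Q : ℝ, 1 ≤ Q → (2 : ℝ) ^ l ≤ Q * 3 ^ L →
    ∀ (C : Finset (List Bool)) (S : ℝ), 0 ≤ S → (∀ v ∈ C, (cw v : ℝ) ≤ S) →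
    ∑ ξ ∈ range R, ‖∑ v ∈ C, e (ξ * (((a * cw v : ℤ) : ℝ) / 2 ^ B))‖ ^ 4 ≤
      2 * (2 ^ l + 8 * S * Q * |(k : ℝ)| * Real.exp (δ * N)) *
        (((qd C).filter (fun q => dq (fun v => (cw v : ℤ)) q = 0)).card : ℝ) := by
  obtain ⟨N0, hgap⟩ := gap hδ hδ1
  refine ⟨N0, ?_⟩
  intro N hN k hk l i B L R hB hBN hLN hR a ha Q hQ hQL C S hS0 hS
  have hk0 : k ≠ 0 := by rintro rfl; simp at hk
  have hk1 : (1 : ℝ) ≤ |(k : ℝ)| := by
    have : (1 : ℤ) ≤ |k| := Int.one_le_abs hk0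
    exact_mod_cast this
  have h2l : (0 : ℝ) < 2 ^ l := by positivity
  set f : List Bool → ℤ := fun v => (cw v : ℤ) with hf
  have h1 := fourth C f a hB hR
  refine h1.trans ?_
  set P : (List Bool × List Bool) × (List Bool × List Bool) → Prop :=
    fun q => ∃ x : ℤ, |x| < 2 ^ i ∧ (2 : ℤ) ^ B ∣ x - a * dq f q with hP
  set D : Finset ℤ := ((qd C).filter P).image (dq f) with hD
  have h2 := count_set C f P D (by
    intro q hq hPq
    rw [hD, mem_image]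
    exact ⟨q, mem_filter.2 ⟨hq, hPq⟩, rfl⟩)
  -- the size of `D`
  set g : ℝ := 2 ^ l * Real.exp (-(δ * N)) / (2 * Q * |(k : ℝ)|) with hg
  have hE := Real.exp_pos (-(δ * N))
  have hg0 : 0 < g := by rw [hg]; positivity
  have h3 : (D.card : ℝ) ≤ 2 * (2 * S) / g + 1 := by
    apply spacing D hg0 (by positivity)
    · intro z hz
      rw [hD, mem_image] at hz
      obtain ⟨q, hq, rfl⟩ := hz
      rw [mem_filter] at hq
      have hq1 := hq.1
      unfold qd at hq1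
      simp only [mem_product] at hq1
      obtain ⟨⟨c1, c2⟩, c3, c4⟩ := hq1
      have s1 := hS _ c1
      have s2 := hS _ c2
      have s3 := hS _ c3
      have s4 := hS _ c4
      have n1 : (0 : ℝ) ≤ cw q.1.1 := Nat.cast_nonneg _
      have n2 : (0 : ℝ) ≤ cw q.1.2 := Nat.cast_nonneg _
      have n3 : (0 : ℝ) ≤ cw q.2.1 := Nat.cast_nonneg _
      have n4 : (0 : ℝ) ≤ cw q.2.2 := Nat.cast_nonneg _
      unfold dq
      rw [hf]
      push_cast
      rw [abs_le]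
      constructor <;> linarith
    · intro z hz z' hz' hne
      rw [hD, mem_image] at hz hz'
      obtain ⟨q, hq, rfl⟩ := hz
      obtain ⟨q', hq', rfl⟩ := hz'
      rw [mem_filter] at hq hq'
      obtain ⟨x, hx1, hx2⟩ := hq.2
      obtain ⟨x', hx1', hx2'⟩ := hq'.2
      by_contra hlt
      push Not at hlt
      set d : ℤ := dq f q - dq f q' with hd
      have hd0 : d ≠ 0 := by rw [hd]; omega
      have hkd : |(k : ℝ)| * |(d : ℝ)| * (2 * Q) ≤ 2 ^ l * Real.exp (-(δ * N)) := by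
        have h4 : |(d : ℝ)| ≤ g := hlt.le
        rw [hg, le_div_iff₀ (by positivity)] at h4
        linarith
      refine hgap N hN k hk l i B L hB hBN hLN (x - x') d hd0 ?_ ?_ ?_ ?_
      · rw [abs_lt] at hx1 hx1' ⊢
        rw [pow_succ]
        constructor <;> linarith [hx1.1, hx1.2, hx1'.1, hx1'.2]
      · have e1 : 3 ^ L * (x - x') + k * d =
            3 ^ L * ((x - a * dq f q) - (x' - a * dq f q')) + d * (3 ^ L * a + k) := by
          rw [hd]; ring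
        rw [e1]
        exact dvd_add ((dvd_sub hx2 hx2').mul_left _) (ha.mul_left _)
      · have h5 : 0 ≤ |(k : ℝ)| * |(d : ℝ)| := by positivity
        nlinarith
      · have h5 : 0 ≤ |(k : ℝ)| * |(d : ℝ)| := by positivity
        have h6 : 2 ^ l * Real.exp (-(δ * N)) ≤ Q * (3 ^ L * Real.exp (-(δ * N))) := by
          rw [← mul_assoc]
          exact mul_le_mul_of_nonneg_right hQL hE.le
        have h7 : |(k : ℝ)| * |(d : ℝ)| * Q ≤ 3 ^ L * Real.exp (-(δ * N)) * Q := by nlinarith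
        exact le_of_mul_le_mul_right h7 (by linarith)
  have h4 : 2 * (2 * S) / g = 8 * S * Q * |(k : ℝ)| * Real.exp (δ * N) / 2 ^ l := by
    rw [hg, Real.exp_neg]
    field_simp
    ring
  rw [h4] at h3
  have h5 : (((qd C).filter P).card : ℝ) ≤ (D.card : ℝ) *
      (((qd C).filter (fun q => dq f q = 0)).card : ℝ) := by
    exact_mod_cast h2
  calc 2 ^ (l + 1) * (((qd C).filter P).card : ℝ)
      ≤ 2 ^ (l + 1) * ((8 * S * Q * |(k : ℝ)| * Real.exp (δ * N) / 2 ^ l + 1) *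
        (((qd C).filter (fun q => dq f q = 0)).card : ℝ)) := by
        apply mul_le_mul_of_nonneg_left _ (by positivity)
        exact h5.trans (mul_le_mul_of_nonneg_right h3 (Nat.cast_nonneg _))
    _ = _ := by
        rw [pow_succ]
        field_simp
        ring

end Pool.Agent.N905.FM
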