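import Pool.Agent.N905.FM.Size
import Pool.Agent.N905.FM.Win

/-! The fourth moment of one window and one class. -/

set_option autoImplicit false

namespace Pool.Agent.N905.FM

open Finset Pool.Agent.TH930.EBQ Pool.Agent.TH930.HW

/-- the growth -/
noncomputable def Gr : ℝ := (2 : ℝ) ^ ((3392 : ℝ) / 655)

lemma Gr_pos : 0 < Gr := by unfold Gr; positivity

lemma Gr_pow : (Gr ^ 2) ^ 655 = 2 ^ 6784 := by
  unfold Gr
  rw [← pow_mul, ← Real.rpow_natCast, ← Real.rpow_mul (by norm_num), ← Real.rpow_natCast]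
  congr 1
  norm_num

lemma nat1 : 3172552507613353 ^ 655 ≤ 2 ^ 6784 * 2420662999104 ^ 655 := by decide +kernel

lemma nat2 : 2342410350384521 ^ 655 ≤ 2 ^ 6784 * 1785793904896 ^ 655 := by decide +kernel

lemma nat3 : 3 ^ 89 * 42 ^ 262 ≤ 61 ^ 262 := by decide +kernel

lemma num_aux (a b : ℕ) (hb : 0 < b) (h : a ^ 655 ≤ 2 ^ 6784 * b ^ 655) : (a : ℝ) / b ≤ Gr ^ 2 := by
  apply le_of_pow_le_pow_left₀ (n := 655) (by norm_num) (sq_nonneg _)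
  rw [Gr_pow, div_pow, div_le_iff₀ (by positivity)]
  exact_mod_cast h

lemma num1 : 4 * ρ1 / (42 / 103) ^ 8 ≤ Gr ^ 2 := by
  have h := num_aux 3172552507613353 2420662999104 (by norm_num) nat1
  refine le_trans (le_of_eq ?_) h
  unfold ρ1
  norm_num

lemma num2 : ρ2 / (34 / 99) ^ 8 ≤ Gr ^ 2 := by
  have h := num_aux 2342410350384521 1785793904896 (by norm_num) nat2
  refine le_trans (le_of_eq ?_) h
  unfold ρ2
  norm_num

/-- the floor costs a factor -/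
lemma floor_aux {ρ : ℝ} (h : 1 / 4 ≤ ρ) (n : ℕ) : (ρ ^ (n / 2)) ^ 2 ≤ 4 * ρ ^ n := by
  have hρ : 0 < ρ := by linarith
  rw [← pow_mul]
  rcases Nat.even_or_odd' n with ⟨m, rfl | rfl⟩
  · have : 2 * m / 2 * 2 = 2 * m := by omega
    rw [this]
    have := pow_pos hρ (2 * m)
    linarith
  · have : (2 * m + 1) / 2 * 2 = 2 * m := by omega
    rw [this, pow_succ]
    have := pow_pos hρ (2 * m)
    nlinarith

/-- the main numerical inequality -/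
lemma weight_bound {l t r r' : ℕ} (ht : t ≤ l) (hr : r ≤ t) (hr' : r' ≤ l - t) {w : ℝ}
    (hw : w = ((61 : ℝ) / 103) ^ r * (42 / 103) ^ (t - r) * ((65 / 99) ^ r' * (34 / 99) ^ (l - t - r'))) :
    2 ^ t * 3 ^ r' * (ρ1 ^ (t / 2) * ρ2 ^ ((l - t) / 2)) * (61 / 42) ^ (4 * (r + r')) ≤
      4 * Gr ^ l * w ^ 4 := by
  have hG := Gr_pos
  have p1 := ρ1_pos
  have p2 := ρ2_pos
  have q1 : (1 : ℝ) / 4 ≤ ρ1 := by unfold ρ1; norm_num
  have q2 : (1 : ℝ) / 4 ≤ ρ2 := by unfold ρ2; norm_num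
  have f1 := floor_aux q1 t
  have f2 := floor_aux q2 (l - t)
  have hw' : w = (42 / 103) ^ t * (61 / 42) ^ r * ((34 / 99) ^ (l - t) * (65 / 34) ^ r') := by
    rw [hw]
    have e1 : ((61 : ℝ) / 103) ^ r = (42 / 103) ^ r * (61 / 42) ^ r := by
      rw [← mul_pow]; norm_num
    have e2 : ((65 : ℝ) / 99) ^ r' = (34 / 99) ^ r' * (65 / 34) ^ r' := by
      rw [← mul_pow]; norm_num
    have e3 : ((42 : ℝ) / 103) ^ t = (42 / 103) ^ r * (42 / 103) ^ (t - r) := by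
      rw [← pow_add]; congr 1; omega
    have e4 : ((34 : ℝ) / 99) ^ (l - t) = (34 / 99) ^ r' * (34 / 99) ^ (l - t - r') := by
      rw [← pow_add]; congr 1; omega
    rw [e1, e2, e3, e4]
    ring
  have hw0 : 0 < w := by rw [hw']; positivity
  have e8 : w ^ 8 = ((42 / 103) ^ 8) ^ t * ((61 / 42) ^ 8) ^ r *
      (((34 / 99) ^ 8) ^ (l - t) * ((65 / 34) ^ 8) ^ r') := by
    rw [hw', mul_pow, mul_pow, mul_pow]
    simp only [← pow_mul]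
    rw [mul_comm 8 t, mul_comm 8 r, mul_comm 8 (l - t), mul_comm 8 r']
  have g1 : (4 * ρ1) ^ t ≤ (Gr ^ 2) ^ t * ((42 / 103) ^ 8) ^ t := by
    rw [← mul_pow]
    apply pow_le_pow_left₀ (by positivity)
    have := num1
    rw [div_le_iff₀ (by positivity)] at this
    exact this
  have g2 : ρ2 ^ (l - t) ≤ (Gr ^ 2) ^ (l - t) * ((34 / 99) ^ 8) ^ (l - t) := by
    rw [← mul_pow]
    apply pow_le_pow_left₀ (by positivity)
    have := num2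
    rw [div_le_iff₀ (by positivity)] at this
    exact this
  have g3 : (9 : ℝ) ^ r' * ((61 / 42) ^ 8) ^ r' ≤ ((65 / 34) ^ 8) ^ r' := by
    rw [← mul_pow]
    apply pow_le_pow_left₀ (by positivity)
    norm_num
  have g4 : (Gr ^ l) ^ 2 = (Gr ^ 2) ^ t * (Gr ^ 2) ^ (l - t) := by
    rw [← pow_mul, ← pow_mul, ← pow_mul, ← pow_add]
    congr 1
    omega
  apply le_of_pow_le_pow_left₀ (n := 2) (by norm_num) (by positivity)
  have l1 : (2 ^ t * 3 ^ r' * (ρ1 ^ (t / 2) * ρ2 ^ ((l - t) / 2)) * (61 / 42) ^ (4 * (r + r'))) ^ 2 =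
      4 ^ t * 9 ^ r' * ((ρ1 ^ (t / 2)) ^ 2 * (ρ2 ^ ((l - t) / 2)) ^ 2) *
        (((61 / 42) ^ 8) ^ r * ((61 / 42) ^ 8) ^ r') := by
    have a1 : (4 : ℝ) ^ t = (2 ^ t) ^ 2 := by rw [← pow_mul, mul_comm, pow_mul]; norm_num
    have a2 : (9 : ℝ) ^ r' = (3 ^ r') ^ 2 := by rw [← pow_mul, mul_comm, pow_mul]; norm_num
    have a3 : ((61 / 42 : ℝ) ^ 8) ^ r * ((61 / 42) ^ 8) ^ r' = ((61 / 42) ^ (4 * (r + r'))) ^ 2 := by
      rw [← pow_add, ← pow_mul, ← pow_mul]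
      congr 1
      ring
    rw [a1, a2, a3]
    ring
  rw [l1]
  calc 4 ^ t * 9 ^ r' * ((ρ1 ^ (t / 2)) ^ 2 * (ρ2 ^ ((l - t) / 2)) ^ 2) *
        (((61 / 42) ^ 8) ^ r * ((61 / 42) ^ 8) ^ r')
      ≤ 4 ^ t * 9 ^ r' * ((4 * ρ1 ^ t) * (4 * ρ2 ^ (l - t))) *
        (((61 / 42) ^ 8) ^ r * ((61 / 42) ^ 8) ^ r') := by gcongr
    _ = 16 * ((4 * ρ1) ^ t * ρ2 ^ (l - t)) * ((61 / 42) ^ 8) ^ r * (9 ^ r' * ((61 / 42) ^ 8) ^ r') := by
        rw [mul_pow]; ring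
    _ ≤ 16 * (((Gr ^ 2) ^ t * ((42 / 103) ^ 8) ^ t) * ((Gr ^ 2) ^ (l - t) * ((34 / 99) ^ 8) ^ (l - t))) *
        ((61 / 42) ^ 8) ^ r * ((65 / 34) ^ 8) ^ r' := by gcongr
    _ = 16 * (Gr ^ l) ^ 2 * w ^ 8 := by rw [e8, g4]; ring
    _ = (4 * Gr ^ l * w ^ 4) ^ 2 := by ring

open Classical in
/-- THE FOURTH MOMENT OF ONE WINDOW AND ONE CLASS -/
theorem moment {δ : ℝ} (hδ : 0 < δ) (hδ1 : δ ≤ 1) : ∃ N0 : ℕ, ∀ N : ℕ, N0 ≤ N → ∀ k : ℤ, Odd k →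
    ∀ l i B L R : ℕ, 1 ≤ l → B = i + l → B ≤ N → L ≤ N → 8 * R ≤ 2 ^ l →
    ∀ a : ℤ, (2 : ℤ) ^ B ∣ 3 ^ L * a + k → ∀ Q : ℝ, 1 ≤ Q → (2 : ℝ) ^ l ≤ Q * 3 ^ L →
    ∀ t r r' : ℕ,
    ∑ ξ ∈ range R, ‖∑ v ∈ cls l (t, (r, r')), e (ξ * (((a * cw v : ℤ) : ℝ) / 2 ^ B))‖ ^ 4 ≤
      72 * l * Q * |(k : ℝ)| * Real.exp (δ * N) * (Gr ^ l / (61 / 42) ^ (4 * (r + r'))) := by
  obtain ⟨N0, hwin⟩ := window hδ hδ1
  refine ⟨N0, ?_⟩
  intro N hN k hk l i B L R hl hB hBN hLN hR a ha Q hQ hQL t r r'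
  have hG := Gr_pos
  have p1 := ρ1_pos
  have p2 := ρ2_pos
  have hk0 : k ≠ 0 := by rintro rfl; simp at hk
  have hk1 : (1 : ℝ) ≤ |(k : ℝ)| := by
    have : (1 : ℤ) ≤ |k| := Int.one_le_abs hk0
    exact_mod_cast this
  have hlR : (1 : ℝ) ≤ l := by exact_mod_cast hl
  have hE : 1 ≤ Real.exp (δ * N) := Real.one_le_exp (by positivity)
  rcases (cls l (t, (r, r'))).eq_empty_or_nonempty with h0 | ⟨u0, hu0⟩
  · rw [h0]
    simp only [sum_empty, norm_zero]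
    rw [zero_pow (by norm_num), sum_const_zero]
    positivity
  · obtain ⟨c1, c2, c3, c4, c5, c6, c7, c8⟩ := cls_spec hu0
    set C := cls l (t, (r, r')) with hC
    set w := ((61 : ℝ) / 103) ^ r * (42 / 103) ^ (t - r) * ((65 / 99) ^ r' * (34 / 99) ^ (l - t - r'))
      with hw
    have hw0 : 0 < w := by rw [hw]; positivity
    have h1 := hwin N hN k hk l i B L R hB hBN hLN hR a ha Q hQ hQL C ((l : ℝ) * (2 ^ t * 3 ^ r'))
      (by positivity) (by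
        intro v hv
        obtain ⟨-, -, -, -, -, -, d7, -⟩ := cls_spec hv
        exact_mod_cast d7)
    have h2 := energy C l (r + r') t w (by
      intro v hv
      obtain ⟨d1, d2, -, -, -, d6, -, -⟩ := cls_spec hv
      exact ⟨d1, d2, d6⟩) c3
    have h3 := weight_bound c3 c4 c5 hw
    refine h1.trans ?_
    set Z : ℝ := (((qd C).filter (fun q => dq (fun v => (cw v : ℤ)) q = 0)).card : ℝ) with hZ
    have hZ0 : 0 ≤ Z := Nat.cast_nonneg _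
    set Y : ℝ := (2 : ℝ) ^ t * 3 ^ r' with hY
    have hY1 : (2 : ℝ) ^ l ≤ Y := by rw [hY]; exact_mod_cast c8
    have hY0 : 0 < Y := by rw [hY]; positivity
    have hZY : Y * Z ≤ 4 * (Gr ^ l / (61 / 42) ^ (4 * (r + r'))) := by
      rw [← mul_div_assoc, le_div_iff₀ (by positivity)]
      have h4 : Z ≤ ρ1 ^ (t / 2) * ρ2 ^ ((l - t) / 2) / w ^ 4 := by
        rw [le_div_iff₀ (by positivity)]
        exact h2
      calc Y * Z * (61 / 42) ^ (4 * (r + r'))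
          ≤ Y * (ρ1 ^ (t / 2) * ρ2 ^ ((l - t) / 2) / w ^ 4) * (61 / 42) ^ (4 * (r + r')) := by gcongr
        _ = (Y * (ρ1 ^ (t / 2) * ρ2 ^ ((l - t) / 2)) * (61 / 42) ^ (4 * (r + r'))) / w ^ 4 := by ring
        _ ≤ (4 * Gr ^ l * w ^ 4) / w ^ 4 := by gcongr
        _ = _ := by field_simp
    set X : ℝ := (l : ℝ) * Q * |(k : ℝ)| * Real.exp (δ * N) with hX
    have hX1 : 1 ≤ X := by
      rw [hX]
      have a1 : 1 ≤ (l : ℝ) * Q := one_le_mul_of_one_le_of_one_le hlR hQ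
      have a2 := one_le_mul_of_one_le_of_one_le a1 hk1
      exact one_le_mul_of_one_le_of_one_le a2 hE
    calc 2 * (2 ^ l + 8 * ((l : ℝ) * Y) * Q * |(k : ℝ)| * Real.exp (δ * N)) * Z
        = 2 * (2 ^ l + 8 * X * Y) * Z := by rw [hX]; ring
      _ ≤ 2 * (X * Y + 8 * X * Y) * Z := by
          have : (2 : ℝ) ^ l ≤ X * Y := hY1.trans (le_mul_of_one_le_left hY0.le hX1)
          gcongr
      _ = 18 * X * (Y * Z) := by ring
      _ ≤ 18 * X * (4 * (Gr ^ l / (61 / 42) ^ (4 * (r + r')))) := by gcongr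
      _ = _ := by rw [hX]; ring

end Pool.Agent.N905.FM
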