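import Mathlib

/-! Sums of four independent residues modulo 4. -/

set_option autoImplicit false

namespace Pool.Agent.N905.FM

/-- the weight of two letters -/
def cN (P Q : ℕ) (x : Bool × Bool) : ℕ := (if x.1 then P else Q) * (if x.2 then P else Q)

/-- the residue of two letters -/
def rN (σ : ℕ) (x : Bool × Bool) : ℕ := (if x.1 then σ else 0) + (if x.2 then 2 else 0)

/-- all pairs of letters -/
def prs : List (Bool × Bool) := [(true, true), (true, false), (false, true), (false, false)]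

/-- the weight of the solutions of a congruence modulo 4 -/
def TN (P Q σa σb σc σd κ : ℕ) : ℕ :=
  (prs.map fun x => (prs.map fun y => (prs.map fun z => (prs.map fun w =>
    if (rN σa x + rN σb y + 3 * rN σc z + 3 * rN σd w + κ) % 4 = 0 then
      cN P Q x * cN P Q y * cN P Q z * cN P Q w else 0).sum).sum).sum).sum

set_option maxRecDepth 100000 in
theorem TN1 : ∀ σa ∈ [1, 3], ∀ σb ∈ [1, 3], ∀ σc ∈ [1, 3], ∀ σd ∈ [1, 3], ∀ κ ∈ [0, 1, 2, 3],
    TN 61 42 σa σb σc σd κ ≤ 3172552507613353 := by decide +kernel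

set_option maxRecDepth 100000 in
theorem TN2 : ∀ σa ∈ [1, 3], ∀ σb ∈ [1, 3], ∀ σc ∈ [1, 3], ∀ σd ∈ [1, 3], ∀ κ ∈ [0, 1, 2, 3],
    TN 65 34 σa σb σc σd κ ≤ 2342410350384521 := by decide +kernel

end Pool.Agent.N905.FM
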