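import Pool.Agent.TH930.EBQ.Words
import Pool.Agent.N905.FM.Dec

/-! Additive quadruples of constants of parity words, modulo `2 ^ n`. -/

set_option autoImplicit false

namespace Pool.Agent.N905.FM

open Finset Pool.Agent.TH930.EBQ

open Classical in
/-- the weight of the quadruples of words with given numbers of ones and given difference -/
noncomputable def F (W : List Bool → ℝ) (n : ℕ) (κ : ℤ) (ma mb mc md : ℕ) : ℝ :=
  ∑ a ∈ words n, ∑ b ∈ words n, ∑ c ∈ words n, ∑ d ∈ words n,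
    if (ones a = ma ∧ ones b = mb ∧ ones c = mc ∧ ones d = md) ∧
      (2 : ℤ) ^ n ∣ (cw a : ℤ) + cw b - cw c - cw d - κ then W a * W b * W c * W d else 0

/-- reordering -/
lemma reorder {α L : Type*} (A : Finset α) (B : Finset L)
    (G : α → L → α → L → α → L → α → L → ℝ) :
    ∑ x ∈ A, ∑ a ∈ B, ∑ y ∈ A, ∑ b ∈ B, ∑ z ∈ A, ∑ c ∈ B, ∑ w ∈ A, ∑ d ∈ B, G x a y b z c w d =
      ∑ x ∈ A, ∑ y ∈ A, ∑ z ∈ A, ∑ w ∈ A, ∑ a ∈ B, ∑ b ∈ B, ∑ c ∈ B, ∑ d ∈ B,
        G x a y b z c w d := by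
  apply sum_congr rfl; intro x _
  rw [sum_comm]
  apply sum_congr rfl; intro y _
  have h1 : ∑ a ∈ B, ∑ b ∈ B, ∑ z ∈ A, ∑ c ∈ B, ∑ w ∈ A, ∑ d ∈ B, G x a y b z c w d =
      ∑ z ∈ A, ∑ a ∈ B, ∑ b ∈ B, ∑ c ∈ B, ∑ w ∈ A, ∑ d ∈ B, G x a y b z c w d := by
    rw [← sum_comm (s := B) (t := A)]
    apply sum_congr rfl; intro a _
    rw [sum_comm]
  rw [h1]
  apply sum_congr rfl; intro z _
  have h2 : ∀ a b : L, ∑ c ∈ B, ∑ w ∈ A, ∑ d ∈ B, G x a y b z c w d =
      ∑ w ∈ A, ∑ c ∈ B, ∑ d ∈ B, G x a y b z c w d := fun a b => by rw [sum_comm]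
  simp only [h2]
  rw [← sum_comm (s := B) (t := A)]
  apply sum_congr rfl; intro a _
  rw [sum_comm]

open Classical in
/-- one step of the recursion -/
theorem step (W W' c : List Bool → ℝ) (s n : ℕ) (hW : ∀ u ∈ words s, ∀ v ∈ words n, W (u ++ v) = c u * W' v)
    (hc : ∀ u, 0 ≤ c u) (hW' : ∀ v, 0 ≤ W' v) {M ρ : ℝ} (hM : 0 ≤ M)
    (hF : ∀ κ ma mb mc md, F W' n κ ma mb mc md ≤ M) (κ : ℤ) (ma mb mc md : ℕ)
    (hρ : (∑ x ∈ words s, ∑ y ∈ words s, ∑ z ∈ words s, ∑ w ∈ words s,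
      if (ones x ≤ ma ∧ ones y ≤ mb ∧ ones z ≤ mc ∧ ones w ≤ md) ∧ (2 : ℤ) ^ s ∣
        (3 : ℤ) ^ (ma - ones x) * cw x + 3 ^ (mb - ones y) * cw y - 3 ^ (mc - ones z) * cw z -
          3 ^ (md - ones w) * cw w - κ then c x * c y * c z * c w else 0) ≤ ρ) :
    F W (s + n) κ ma mb mc md ≤ ρ * M := by
  unfold F
  simp only [sum_words_add]
  rw [reorder]
  refine le_trans ?_ (mul_le_mul_of_nonneg_right hρ hM)
  rw [sum_mul]
  apply sum_le_sum; intro x hx
  rw [sum_mul]
  apply sum_le_sum; intro y hy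
  rw [sum_mul]
  apply sum_le_sum; intro z hz
  rw [sum_mul]
  apply sum_le_sum; intro w hw
  have hxl := mem_words.1 hx
  have hyl := mem_words.1 hy
  have hzl := mem_words.1 hz
  have hwl := mem_words.1 hw
  set Y : ℤ := (3 : ℤ) ^ (ma - ones x) * cw x + 3 ^ (mb - ones y) * cw y - 3 ^ (mc - ones z) * cw z -
          3 ^ (md - ones w) * cw w with hY
  have h2s : (0 : ℤ) < 2 ^ s := by positivity
  -- the condition on the long words
  have key : ∀ a b c' d : List Bool,
      ((ones (x ++ a) = ma ∧ ones (y ++ b) = mb ∧ ones (z ++ c') = mc ∧ ones (w ++ d) = md) ∧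
        (2 : ℤ) ^ (s + n) ∣ (cw (x ++ a) : ℤ) + cw (y ++ b) - cw (z ++ c') - cw (w ++ d) - κ) →
      ((ones x ≤ ma ∧ ones y ≤ mb ∧ ones z ≤ mc ∧ ones w ≤ md) ∧ (2 : ℤ) ^ s ∣ Y - κ) ∧
      ((ones a = ma - ones x ∧ ones b = mb - ones y ∧ ones c' = mc - ones z ∧ ones d = md - ones w) ∧
        (2 : ℤ) ^ n ∣ (cw a : ℤ) + cw b - cw c' - cw d - (κ - Y) / 2 ^ s) := by
    rintro a b c' d ⟨⟨h1, h2, h3, h4⟩, h5⟩
    rw [ones_append] at h1 h2 h3 h4
    have e1 : ma - ones x = ones a := by omega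
    have e2 : mb - ones y = ones b := by omega
    have e3 : mc - ones z = ones c' := by omega
    have e4 : md - ones w = ones d := by omega
    rw [cw_append, cw_append, cw_append, cw_append, hxl, hyl, hzl, hwl] at h5
    push_cast at h5
    have e5 : (3 : ℤ) ^ ones a * cw x + 2 ^ s * cw a + (3 ^ ones b * cw y + 2 ^ s * cw b) -
        (3 ^ ones c' * cw z + 2 ^ s * cw c') - (3 ^ ones d * cw w + 2 ^ s * cw d) - κ =
        (Y - κ) + 2 ^ s * ((cw a : ℤ) + cw b - cw c' - cw d) := by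
      rw [hY, e1, e2, e3, e4]; ring
    rw [e5] at h5
    have h6 : (2 : ℤ) ^ s ∣ Y - κ := by
      have h7 : (2 : ℤ) ^ s ∣ (Y - κ) + 2 ^ s * ((cw a : ℤ) + cw b - cw c' - cw d) :=
        dvd_trans (pow_dvd_pow 2 (by omega)) h5
      exact (Int.dvd_add_left (dvd_mul_right _ _)).1 h7
    refine ⟨⟨⟨by omega, by omega, by omega, by omega⟩, h6⟩, ⟨e1.symm, e2.symm, e3.symm, e4.symm⟩, ?_⟩
    obtain ⟨t, ht⟩ := h6
    have h8 : κ - Y = 2 ^ s * (-t) := by linear_combination -ht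
    rw [h8, Int.mul_ediv_cancel_left _ h2s.ne']
    rw [ht, ← mul_add, pow_add] at h5
    have h9 := (mul_dvd_mul_iff_left h2s.ne').1 h5
    have e6 : (cw a : ℤ) + cw b - cw c' - cw d - -t = t + ((cw a : ℤ) + cw b - cw c' - cw d) := by ring
    rw [e6]; exact h9
  by_cases hcond : (ones x ≤ ma ∧ ones y ≤ mb ∧ ones z ≤ mc ∧ ones w ≤ md) ∧ (2 : ℤ) ^ s ∣ Y - κ
  · rw [if_pos hcond]
    have h1 := hF ((κ - Y) / 2 ^ s) (ma - ones x) (mb - ones y) (mc - ones z) (md - ones w)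
    refine le_trans ?_ (mul_le_mul_of_nonneg_left h1 (by
      have := hc x; have := hc y; have := hc z; have := hc w; positivity))
    unfold F
    rw [mul_sum]
    apply sum_le_sum; intro a ha
    rw [mul_sum]
    apply sum_le_sum; intro b hb
    rw [mul_sum]
    apply sum_le_sum; intro c' hc'
    rw [mul_sum]
    apply sum_le_sum; intro d hd
    have n0 : 0 ≤ c x * c y * c z * c w := by
      have := hc x; have := hc y; have := hc z; have := hc w; positivity
    have n1 : 0 ≤ W' a * W' b * W' c' * W' d := by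
      have := hW' a; have := hW' b; have := hW' c'; have := hW' d; positivity
    split_ifs with h2 h3 h3
    · rw [hW x hx a ha, hW y hy b hb, hW z hz c' hc', hW w hw d hd]
      apply le_of_eq; ring
    · exact absurd (key a b c' d h2).2 h3
    · positivity
    · rw [mul_zero]
  · rw [if_neg hcond, zero_mul]
    apply le_of_eq
    apply sum_eq_zero; intro a _
    apply sum_eq_zero; intro b _
    apply sum_eq_zero; intro c' _
    apply sum_eq_zero; intro d _
    rw [if_neg]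
    intro h
    exact hcond (key a b c' d h).1

lemma sum_words_one (f : List Bool → ℝ) : ∑ v ∈ words 1, f v = f [true] + f [false] := by
  rw [show (1 : ℕ) = 0 + 1 by rfl, sum_words_succ]
  simp [words]

lemma sum_words_two' (f : List Bool → ℝ) :
    ∑ v ∈ words 2, f v = (f [true, true] + f [true, false]) + (f [false, true] + f [false, false]) := by
  rw [show (2 : ℕ) = 1 + 1 by rfl, sum_words_succ, sum_words_one]
  ring

lemma F_zero (W : List Bool → ℝ) (hW : ∀ v, 0 ≤ W v) (hn : W [] ≤ 1) (κ : ℤ) (ma mb mc md : ℕ) :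
    F W 0 κ ma mb mc md ≤ 1 := by
  unfold F
  simp only [words, sum_singleton]
  have h := hW []
  split_ifs
  · have h1 : W [] * W [] ≤ 1 := mul_le_one₀ hn h hn
    have h2 : W [] * W [] * W [] ≤ 1 := mul_le_one₀ h1 h hn
    exact mul_le_one₀ h2 h hn
  · norm_num

open Classical in
/-- one letter -/
theorem step_one (W W' : List Bool → ℝ) (c : Bool → ℝ) (n : ℕ)
    (hW : ∀ b : Bool, ∀ v ∈ words n, W (b :: v) = c b * W' v)
    (hc : ∀ b, 0 ≤ c b) (hc1 : c true + c false = 1) (hW' : ∀ v, 0 ≤ W' v) {M : ℝ} (hM : 0 ≤ M)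
    (hF : ∀ κ ma mb mc md, F W' n κ ma mb mc md ≤ M) (κ : ℤ) (ma mb mc md : ℕ) :
    F W (n + 1) κ ma mb mc md ≤ M := by
  have h := step W W' (fun u => c (u.headD false)) 1 n (by
    intro u hu v hv
    rw [mem_words, List.length_eq_one_iff] at hu
    obtain ⟨b, rfl⟩ := hu
    exact hW b v hv) (fun u => hc _) hW' hM hF κ ma mb mc md (ρ := 1) (by
    have h1 : ∀ x ∈ words 1, ∀ y ∈ words 1, ∀ z ∈ words 1, ∀ w ∈ words 1,
        (if (ones x ≤ ma ∧ ones y ≤ mb ∧ ones z ≤ mc ∧ ones w ≤ md) ∧ (2 : ℤ) ^ 1 ∣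
        (3 : ℤ) ^ (ma - ones x) * cw x + 3 ^ (mb - ones y) * cw y - 3 ^ (mc - ones z) * cw z -
          3 ^ (md - ones w) * cw w - κ then c (x.headD false) * c (y.headD false) * c (z.headD false) *
            c (w.headD false) else 0) ≤
        c (x.headD false) * c (y.headD false) * c (z.headD false) * c (w.headD false) := by
      intro x _ y _ z _ w _
      have := hc (x.headD false); have := hc (y.headD false)
      have := hc (z.headD false); have := hc (w.headD false)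
      split_ifs
      · exact le_rfl
      · positivity
    refine (sum_le_sum fun x hx => sum_le_sum fun y hy => sum_le_sum fun z hz =>
      sum_le_sum fun w hw => h1 x hx y hy z hz w hw).trans ?_
    apply le_of_eq
    simp only [← mul_sum, ← sum_mul, sum_words_one, List.headD_cons, hc1, mul_one])
  rw [one_mul, add_comm] at h
  exact h

end Pool.Agent.N905.FM
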