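import Pool.Agent.N905.FM.Cls
import Pool.Agent.TH930.EBQ.Four

/-! Four windows. -/

set_option autoImplicit false

namespace Pool.Agent.N905.FM

open Finset Pool.Agent.TH930.EBQ Pool.Agent.TH930.HW

lemma holder4 (R : ℕ) (A1 A2 A3 A4 : ℕ → ℝ) :
    (∑ ξ ∈ range R, A1 ξ * A2 ξ * (A3 ξ * A4 ξ)) ^ 4 ≤
      ((∑ ξ ∈ range R, A1 ξ ^ 4) * (∑ ξ ∈ range R, A2 ξ ^ 4)) *
        ((∑ ξ ∈ range R, A3 ξ ^ 4) * (∑ ξ ∈ range R, A4 ξ ^ 4)) := by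
  have h0 := Finset.sum_mul_sq_le_sq_mul_sq (range R) (fun ξ => A1 ξ * A2 ξ) (fun ξ => A3 ξ * A4 ξ)
  have h1 := Finset.sum_mul_sq_le_sq_mul_sq (range R) (fun ξ => A1 ξ ^ 2) (fun ξ => A2 ξ ^ 2)
  have h2 := Finset.sum_mul_sq_le_sq_mul_sq (range R) (fun ξ => A3 ξ ^ 2) (fun ξ => A4 ξ ^ 2)
  simp only [← pow_mul] at h1 h2
  simp only [mul_pow] at h0
  norm_num at h1 h2
  set P := ∑ ξ ∈ range R, A1 ξ ^ 2 * A2 ξ ^ 2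
  set Q := ∑ ξ ∈ range R, A3 ξ ^ 2 * A4 ξ ^ 2
  calc (∑ ξ ∈ range R, A1 ξ * A2 ξ * (A3 ξ * A4 ξ)) ^ 4
      = ((∑ ξ ∈ range R, A1 ξ * A2 ξ * (A3 ξ * A4 ξ)) ^ 2) ^ 2 := by ring
    _ ≤ (P * Q) ^ 2 := pow_le_pow_left₀ (sq_nonneg _) h0 2
    _ = P ^ 2 * Q ^ 2 := by ring
    _ ≤ _ := mul_le_mul h1 h2 (sq_nonneg _) ((sq_nonneg _).trans h1)

lemma phase4 (ξ a c1 c2 c3 c4 t2 t3 t4 A : ℝ) (hA : A ≠ 0) :
    ξ * (a * (t2 * (t3 * t4) * c1 + A * (t3 * t4 * c2 + A * (t4 * c3 + A * c4))) / (A * A * A * A)) =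
      (ξ * (a * (t2 * (t3 * t4)) * c1 / (A * A * A * A)) + ξ * (a * (t3 * t4) * c2 / (A * A * A))) +
      (ξ * (a * t4 * c3 / (A * A)) + ξ * (a * c4 / A)) := by
  field_simp
  ring

/-- the concatenation -/
def cat4 (t : List Bool × (List Bool × (List Bool × List Bool))) : List Bool :=
  t.1 ++ (t.2.1 ++ (t.2.2.1 ++ t.2.2.2))

lemma factor4 {l : ℕ} (a : ℤ) (C1 C2 C3 C4 : Finset (List Bool)) {o2 o3 o4 : ℕ}
    (h1 : ∀ v ∈ C1, v.length = l) (h2 : ∀ v ∈ C2, v.length = l ∧ ones v = o2)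
    (h3 : ∀ v ∈ C3, v.length = l ∧ ones v = o3) (h4 : ∀ v ∈ C4, v.length = l ∧ ones v = o4) (ξ : ℕ) :
    ‖∑ v ∈ (C1 ×ˢ (C2 ×ˢ (C3 ×ˢ C4))).image cat4, e (ξ * (((a * cw v : ℤ) : ℝ) / 2 ^ (4 * l)))‖ =
      ‖∑ v ∈ C1, e (ξ * (((a * 3 ^ (o2 + (o3 + o4)) * cw v : ℤ) : ℝ) / 2 ^ (4 * l)))‖ *
      ‖∑ v ∈ C2, e (ξ * (((a * 3 ^ (o3 + o4) * cw v : ℤ) : ℝ) / 2 ^ (3 * l)))‖ *
      (‖∑ v ∈ C3, e (ξ * (((a * 3 ^ o4 * cw v : ℤ) : ℝ) / 2 ^ (2 * l)))‖ *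
      ‖∑ v ∈ C4, e (ξ * (((a * cw v : ℤ) : ℝ) / 2 ^ l))‖) := by
  classical
  have hinj : Set.InjOn cat4 (C1 ×ˢ (C2 ×ˢ (C3 ×ˢ C4)) : Finset _) := by
    intro t ht u hu htu
    rw [mem_coe, mem_product, mem_product, mem_product] at ht hu
    unfold cat4 at htu
    have l1 : t.1.length = u.1.length := by rw [h1 _ ht.1, h1 _ hu.1]
    have l2 : t.2.1.length = u.2.1.length := by rw [(h2 _ ht.2.1).1, (h2 _ hu.2.1).1]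
    have l3 : t.2.2.1.length = u.2.2.1.length := by rw [(h3 _ ht.2.2.1).1, (h3 _ hu.2.2.1).1]
    obtain ⟨e1, e2⟩ := List.append_inj htu l1
    obtain ⟨e3, e4⟩ := List.append_inj e2 l2
    obtain ⟨e5, e6⟩ := List.append_inj e4 l3
    exact Prod.ext e1 (Prod.ext e3 (Prod.ext e5 e6))
  rw [← norm_mul, ← norm_mul, ← norm_mul]
  congr 1
  rw [sum_image hinj, sum_product, sum_mul_sum, sum_mul_sum, sum_mul]
  apply sum_congr rfl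
  intro v1 hv1
  rw [sum_product, sum_mul]
  apply sum_congr rfl
  intro v2 hv2
  rw [sum_product, mul_sum]
  apply sum_congr rfl
  intro v3 hv3
  rw [mul_sum]
  apply sum_congr rfl
  intro v4 hv4
  rw [← e_add, ← e_add, ← e_add]
  congr 1
  unfold cat4
  simp only
  rw [cw_append, cw_append, cw_append, ones_append, ones_append, (h1 _ hv1), (h2 _ hv2).1, (h3 _ hv3).1,
    (h2 _ hv2).2, (h3 _ hv3).2, (h4 _ hv4).2]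
  have p3 : (2 : ℝ) ^ l ≠ 0 := by positivity
  have q4 : (2 : ℝ) ^ (4 * l) = 2 ^ l * 2 ^ l * 2 ^ l * 2 ^ l := by
    rw [← pow_add, ← pow_add, ← pow_add]; congr 1; ring
  have q3 : (2 : ℝ) ^ (3 * l) = 2 ^ l * 2 ^ l * 2 ^ l := by
    rw [← pow_add, ← pow_add]; congr 1; ring
  have q2 : (2 : ℝ) ^ (2 * l) = 2 ^ l * 2 ^ l := by
    rw [← pow_add]; congr 1; ring
  rw [q4, q3, q2]
  push_cast
  rw [pow_add (3 : ℝ) o2, pow_add (3 : ℝ) o3]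
  exact phase4 ξ a (cw v1) (cw v2) (cw v3) (cw v4) (3 ^ o2) (3 ^ o3) (3 ^ o4) (2 ^ l) p3

end Pool.Agent.N905.FM
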