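import Pool.Agent.N905.FM.Cb

/-! The count of integers whose orbits do not fall, with an explicit exponent. -/

set_option autoImplicit false

namespace Pool.Agent.N905.FM

open Finset Pool.Agent.TH930.EBQ Pool.Agent.TH930.HW

/-- polynomials against exponentials -/
lemma poly_exp' (n : ℕ) {a : ℝ} (ha : 0 < a) : ∃ C : ℝ, 0 < C ∧ ∀ l : ℕ,
    ((l : ℝ) + 1) ^ n ≤ C * Real.exp (a * l) := by
  refine ⟨(n.factorial : ℝ) * (1 / a) ^ n * Real.exp a, by positivity, fun l => ?_⟩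
  have hl : (0 : ℝ) ≤ l := Nat.cast_nonneg l
  have h1 := Real.pow_div_factorial_le_exp (a * ((l : ℝ) + 1)) (by positivity) n
  rw [div_le_iff₀ (by positivity)] at h1
  have h2 : ((l : ℝ) + 1) ^ n = (1 / a) ^ n * (a * ((l : ℝ) + 1)) ^ n := by
    rw [← mul_pow]; congr 1; field_simp
  have h3 : Real.exp (a * ((l : ℝ) + 1)) = Real.exp a * Real.exp (a * l) := by
    rw [← Real.exp_add]; congr 1; ring
  rw [h2]
  calc (1 / a) ^ n * (a * ((l : ℝ) + 1)) ^ n ≤ (1 / a) ^ n * (Real.exp (a * ((l : ℝ) + 1)) * n.factorial) := by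
        gcongr
    _ = _ := by rw [h3]; ring

/-- the classes together, `W = 3 l` -/
theorem count_three {δ : ℝ} (hδ : 0 < δ) (hδ1 : δ ≤ 1) : ∃ N0 : ℕ, ∀ l : ℕ, 3 ≤ l → N0 ≤ 4 * l →
    ∀ k : ℤ, Odd k → ∀ Q : ℕ, 1 ≤ Q → ∀ H : ℝ, 1 ≤ H → ∀ (u : ℤ) (B : Finset ℤ),
    (∀ x ∈ B, |x - u| ≤ 2 ^ (3 * l) ∧ (2 ^ l ≤ Q * 3 ^ ones (wd k l x) ∧
        H * 2 ^ (4 * l) ≤ (Q : ℝ) * 3 ^ ones (wd k (4 * l) x))) →
    (B.card : ℝ) ≤ (l + 1) ^ 12 * (2304 * l * Q ^ 2 * |(k : ℝ)| * Real.exp (δ * ((4 * l : ℕ) : ℝ)) *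
      (Real.exp (l * (Real.log 2 * (3694 / 1310))) / H ^ (89 / 262 : ℝ))) := by
  classical
  obtain ⟨N0, hcb⟩ := class_bound hδ hδ1
  refine ⟨N0, ?_⟩
  intro l hl hN k hk Q hQ H hH u B hB
  set f : ℤ → (ℕ × (ℕ × ℕ)) × ((ℕ × (ℕ × ℕ)) × ((ℕ × (ℕ × ℕ)) × (ℕ × (ℕ × ℕ)))) := fun x =>
    (lab (wd k l x), (lab (wd k l ((T k)^[l] x)), (lab (wd k l ((T k)^[l + l] x)),
      lab (wd k l ((T k)^[l + l + l] x))))) with hf
  set D : Finset (ℕ × (ℕ × ℕ)) := range (l + 1) ×ˢ (range (l + 1) ×ˢ range (l + 1)) with hD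
  have hlab : ∀ x : ℤ, lab (wd k l x) ∈ D := by
    intro x
    have h1 : wd k l x ∈ cls l (lab (wd k l x)) := by
      rw [mem_cls]; exact ⟨wd_length k l x, rfl⟩
    obtain ⟨-, -, c3, c4, c5, -, -, -⟩ := cls_spec (t := (lab (wd k l x)).1) (r := (lab (wd k l x)).2.1)
      (r' := (lab (wd k l x)).2.2) h1
    rw [hD, mem_product, mem_product, mem_range, mem_range, mem_range]
    omega
  have hmaps : ∀ x ∈ B, f x ∈ D ×ˢ (D ×ˢ (D ×ˢ D)) := by
    intro x _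
    rw [hf]
    simp only [mem_product]
    exact ⟨hlab _, hlab _, hlab _, hlab _⟩
  have h1 := card_eq_sum_card_fiberwise hmaps
  have h2 : ∀ q ∈ D ×ˢ (D ×ˢ (D ×ˢ D)), ((B.filter (fun x => f x = q)).card : ℝ) ≤
      2304 * l * Q ^ 2 * |(k : ℝ)| * Real.exp (δ * ((4 * l : ℕ) : ℝ)) *
        (Real.exp (l * (Real.log 2 * (3694 / 1310))) / H ^ (89 / 262 : ℝ)) := by
    intro q _
    apply hcb l hl hN k hk Q hQ H hH q.1 q.2.1 q.2.2.1 q.2.2.2 u
    intro x hx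
    rw [mem_filter] at hx
    obtain ⟨hx1, hx2⟩ := hx
    obtain ⟨a1, a2⟩ := hB x hx1
    refine ⟨a1, a2, ?_, ?_, ?_, ?_⟩ <;> rw [mem_cls] <;> refine ⟨wd_length _ _ _, ?_⟩ <;>
      rw [← hx2]
  rw [h1]
  push_cast
  refine (sum_le_card_nsmul _ _ _ h2).trans (le_of_eq ?_)
  have hcard : (D ×ˢ (D ×ˢ (D ×ˢ D))).card = (l + 1) ^ 12 := by
    rw [hD]
    simp only [card_product, card_range]
    ring
  rw [nsmul_eq_mul, hcard]
  push_cast
  ring

/-- the exponent -/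
noncomputable def η0 : ℝ := 93995 / 100000

/-- THE MAIN COUNTING THEOREM, WITH AN EXPLICIT EXPONENT, conditions at two times only, and with the
gain for the points which rise -/
theorem count_height : ∃ C μ : ℝ, 0 < C ∧ 0 < μ ∧ μ ≤ 1 ∧
    ∀ k : ℤ, Odd k → ∀ W Q : ℕ, 1 ≤ Q → (Q : ℝ) ≤ Real.exp (μ * W) → |(k : ℝ)| ≤ Real.exp (μ * W) →
    ∀ H : ℝ, 1 ≤ H → H ≤ 2 ^ (4 * W) → ∀ (u : ℤ) (B : Finset ℤ), (∀ x ∈ B, |x - u| ≤ 2 ^ W ∧
      2 ^ (W / 3) ≤ Q * 3 ^ ones (wd k (W / 3) x) ∧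
      H * 2 ^ (4 * (W / 3)) ≤ (Q : ℝ) * 3 ^ ones (wd k (4 * (W / 3)) x)) →
      (B.card : ℝ) ≤ C * (Real.exp (W * (Real.log 2 * η0)) / H ^ (89 / 262 : ℝ)) := by
  classical
  have hl2 : 0 < Real.log 2 := Real.log_pos (by norm_num)
  set ε : ℝ := Real.log 2 * (η0 - 3694 / 3930) with hε
  have hε0 : 0 < ε := by
    rw [hε]; apply mul_pos hl2; unfold η0; norm_num
  have hl21 : Real.log 2 ≤ 1 := by
    have := Real.log_two_lt_d9
    linarith
  have hε1 : ε ≤ 1 := by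
    rw [hε]
    have : η0 - 3694 / 3930 ≤ 1 := by unfold η0; norm_num
    have h0 : 0 ≤ η0 - 3694 / 3930 := by unfold η0; norm_num
    nlinarith
  -- δ, μ
  obtain ⟨N0, h3⟩ := count_three (δ := ε / 4) (by linarith) (by linarith)
  obtain ⟨C1, hC1, hpoly⟩ := poly_exp' 13 (a := ε) hε0
  set L0 : ℕ := N0 + 3 with hL0
  set C2 : ℝ := max (9 * (2304 * (C1 * Real.exp 9))) (3 * 2 ^ (3 * L0 + 3) * 2 ^ (4 * (3 * L0 + 3)))
    with hC2
  have hC2a : 9 * (2304 * (C1 * Real.exp 9)) ≤ C2 := le_max_left _ _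
  have hC2b : (3 : ℝ) * 2 ^ (3 * L0 + 3) * 2 ^ (4 * (3 * L0 + 3)) ≤ C2 := le_max_right _ _
  have hC20 : 0 < C2 := lt_of_lt_of_le (by positivity) hC2b
  refine ⟨C2, ε / 9, hC20, by positivity, by linarith, ?_⟩
  intro k hk W Q hQ1 hQ hkμ H hH hHW u B hB
  have hH0 : 0 < H := by linarith
  have hHc : 0 < H ^ (89 / 262 : ℝ) := Real.rpow_pos_of_pos hH0 _
  have hWR : (0 : ℝ) ≤ W := Nat.cast_nonneg W
  have hη : 0 < η0 := by unfold η0; norm_num
  have hX1 : (1 : ℝ) ≤ Real.exp (W * (Real.log 2 * η0)) := Real.one_le_exp (by positivity)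
  rcases lt_or_ge W (3 * L0 + 3) with hsm | hbig
  · -- small `W`
    have h2 : B ⊆ Icc (u - (2 : ℤ) ^ W) (u + 2 ^ W) := by
      intro x hx
      rw [mem_Icc]
      have := abs_le.1 (hB x hx).1
      constructor <;> linarith [this.1, this.2]
    have h3 := card_le_card h2
    rw [Int.card_Icc] at h3
    have h4 : (u + (2 : ℤ) ^ W + 1 - (u - (2 : ℤ) ^ W)).toNat ≤ 3 * 2 ^ W := by
      have : (1 : ℤ) ≤ 2 ^ W := one_le_pow₀ (by norm_num)
      have h5 : ((3 * 2 ^ W : ℕ) : ℤ) = 3 * 2 ^ W := by push_cast; rfl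
      omega
    have h6 : 3 * 2 ^ W ≤ 3 * 2 ^ (3 * L0 + 3) :=
      Nat.mul_le_mul_left 3 (Nat.pow_le_pow_right (by norm_num) hsm.le)
    have h7 : (B.card : ℝ) ≤ 3 * 2 ^ (3 * L0 + 3) := by exact_mod_cast h3.trans (h4.trans h6)
    have hHs : H ^ (89 / 262 : ℝ) ≤ 2 ^ (4 * (3 * L0 + 3)) := by
      calc H ^ (89 / 262 : ℝ) ≤ H ^ (1 : ℝ) := Real.rpow_le_rpow_of_exponent_le hH (by norm_num)
        _ = H := Real.rpow_one _
        _ ≤ 2 ^ (4 * W) := hHW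
        _ ≤ 2 ^ (4 * (3 * L0 + 3)) := pow_le_pow_right₀ (by norm_num) (by omega)
    rw [← mul_div_assoc, le_div_iff₀ hHc]
    calc (B.card : ℝ) * H ^ (89 / 262 : ℝ) ≤ 3 * 2 ^ (3 * L0 + 3) * 2 ^ (4 * (3 * L0 + 3)) :=
          mul_le_mul h7 hHs hHc.le (by positivity)
      _ ≤ C2 * 1 := by rw [mul_one]; exact hC2b
      _ ≤ _ := mul_le_mul_of_nonneg_left hX1 hC20.le
  · -- large `W`
    set l : ℕ := W / 3 with hl
    have hl1 : 3 * l ≤ W := by omega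
    have hl2' : W ≤ 3 * l + 2 := by omega
    have hll : L0 ≤ l := by omega
    have hlR : (0 : ℝ) ≤ l := Nat.cast_nonneg l
    have hWl : (W : ℝ) ≤ 3 * l + 2 := by exact_mod_cast hl2'
    have hlW : 3 * (l : ℝ) ≤ W := by exact_mod_cast hl1
    -- nine pieces
    set M : ℤ := 2 ^ (3 * l) with hM
    have hM0 : 0 < M := by rw [hM]; positivity
    set f : ℤ → ℤ := fun x => (x - u) / M with hf
    have hmaps : ∀ x ∈ B, f x ∈ Icc (-4 : ℤ) 4 := by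
      intro x hx
      obtain ⟨a1, -⟩ := hB x hx
      have h5 : (2 : ℤ) ^ W ≤ 4 * M := by
        rw [hM]
        calc (2 : ℤ) ^ W ≤ 2 ^ (3 * l + 2) := pow_le_pow_right₀ (by norm_num) hl2'
          _ = _ := by rw [pow_add]; ring
      have h6 := abs_le.1 (a1.trans h5)
      rw [hf, mem_Icc]
      constructor
      · rw [Int.le_ediv_iff_mul_le hM0]; linarith [h6.1]
      · apply Int.le_of_lt_add_one
        rw [Int.ediv_lt_iff_lt_mul hM0]; linarith [h6.2]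
    have h1 := card_eq_sum_card_fiberwise hmaps
    have h2 : ∀ q ∈ Icc (-4 : ℤ) 4, ((B.filter (fun x => f x = q)).card : ℝ) ≤
        (l + 1) ^ 12 * (2304 * l * Q ^ 2 * |(k : ℝ)| * Real.exp (ε / 4 * ((4 * l : ℕ) : ℝ)) *
      (Real.exp (l * (Real.log 2 * (3694 / 1310))) / H ^ (89 / 262 : ℝ))) := by
      intro q _
      apply h3 l (by omega) (by omega) k hk Q hQ1 H hH (u + q * M)
      intro x hx
      rw [mem_filter] at hx
      obtain ⟨hx1, hx2⟩ := hx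
      obtain ⟨a1, a2⟩ := hB x hx1
      constructor
      · rw [hf] at hx2
        simp only at hx2
        have e1 := Int.emod_add_mul_ediv (x - u) M
        rw [hx2] at e1
        have e2 := Int.emod_nonneg (x - u) hM0.ne'
        have e3 := Int.emod_lt_of_pos (x - u) hM0
        have e4 : x - (u + q * M) = (x - u) % M := by linear_combination -e1
        rw [e4, abs_of_nonneg e2]
        exact e3.le
      · exact a2
    have h4 : (B.card : ℝ) ≤ 9 * ((l + 1) ^ 12 * (2304 * l * Q ^ 2 * |(k : ℝ)| *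
        Real.exp (ε / 4 * ((4 * l : ℕ) : ℝ)) *
        (Real.exp (l * (Real.log 2 * (3694 / 1310))) / H ^ (89 / 262 : ℝ)))) := by
      rw [h1]
      push_cast
      refine (sum_le_card_nsmul _ _ _ h2).trans (le_of_eq ?_)
      rw [nsmul_eq_mul, Int.card_Icc]
      push_cast
      norm_num
    have hQ2 : (Q : ℝ) ^ 2 * |(k : ℝ)| ≤ Real.exp (3 * (ε / 9 * W)) := by
      have e1 : Real.exp (3 * (ε / 9 * W)) = Real.exp (ε / 9 * W) ^ 2 * Real.exp (ε / 9 * W) := by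
        rw [← Real.exp_nat_mul, ← Real.exp_add]; congr 1; push_cast; ring
      rw [e1]
      exact mul_le_mul (pow_le_pow_left₀ (Nat.cast_nonneg Q) hQ 2) hkμ (abs_nonneg _) (sq_nonneg _)
    have hpl := hpoly l
    have h5 : ((l : ℝ) + 1) ^ 12 * l ≤ C1 * Real.exp (ε * l) := by
      refine le_trans ?_ hpl
      have e1 : ((l : ℝ) + 1) ^ 13 = (l + 1) ^ 12 * (l + 1) := pow_succ _ _
      rw [e1]
      exact mul_le_mul_of_nonneg_left (by linarith) (by positivity)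
    have hfin : Real.exp (ε * l) * Real.exp (3 * (ε / 9 * W)) * Real.exp (ε / 4 * ((4 * l : ℕ) : ℝ)) *
        Real.exp (l * (Real.log 2 * (3694 / 1310))) ≤ Real.exp 9 * Real.exp (W * (Real.log 2 * η0)) := by
      rw [← Real.exp_add, ← Real.exp_add, ← Real.exp_add, ← Real.exp_add]
      apply Real.exp_le_exp.2
      push_cast
      have e1 : Real.log 2 * (3694 / 1310) = 3 * (Real.log 2 * η0 - ε) := by rw [hε]; ring
      rw [e1]
      have e2 : 3 * (l : ℝ) * (Real.log 2 * η0) ≤ W * (Real.log 2 * η0) :=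
        mul_le_mul_of_nonneg_right hlW (by positivity)
      nlinarith
    have h4' : (B.card : ℝ) ≤ (9 * ((l + 1) ^ 12 * (2304 * l * Q ^ 2 * |(k : ℝ)| *
        Real.exp (ε / 4 * ((4 * l : ℕ) : ℝ)) * Real.exp (l * (Real.log 2 * (3694 / 1310)))))) /
          H ^ (89 / 262 : ℝ) := by
      refine h4.trans (le_of_eq ?_)
      ring
    refine h4'.trans ?_
    rw [← mul_div_assoc C2]
    apply div_le_div_of_nonneg_right _ hHc.le
    calc 9 * (((l : ℝ) + 1) ^ 12 * (2304 * l * Q ^ 2 * |(k : ℝ)| *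
        Real.exp (ε / 4 * ((4 * l : ℕ) : ℝ)) * Real.exp (l * (Real.log 2 * (3694 / 1310)))))
      = 9 * 2304 * (((l : ℝ) + 1) ^ 12 * l) * ((Q : ℝ) ^ 2 * |(k : ℝ)|) *
        (Real.exp (ε / 4 * ((4 * l : ℕ) : ℝ)) * Real.exp (l * (Real.log 2 * (3694 / 1310)))) := by ring
      _ ≤ 9 * 2304 * (C1 * Real.exp (ε * l)) * Real.exp (3 * (ε / 9 * W)) *
        (Real.exp (ε / 4 * ((4 * l : ℕ) : ℝ)) * Real.exp (l * (Real.log 2 * (3694 / 1310)))) := by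
          gcongr
      _ = 9 * 2304 * C1 * (Real.exp (ε * l) * Real.exp (3 * (ε / 9 * W)) *
        Real.exp (ε / 4 * ((4 * l : ℕ) : ℝ)) * Real.exp (l * (Real.log 2 * (3694 / 1310)))) := by ring
      _ ≤ 9 * 2304 * C1 * (Real.exp 9 * Real.exp (W * (Real.log 2 * η0))) := by gcongr
      _ = 9 * (2304 * (C1 * Real.exp 9)) * Real.exp (W * (Real.log 2 * η0)) := by ring
      _ ≤ _ := mul_le_mul_of_nonneg_right hC2a (Real.exp_pos _).le

/-- THE MAIN COUNTING THEOREM, WITH AN EXPLICIT EXPONENT -/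
theorem count_explicit : ∃ C μ : ℝ, 0 < C ∧ 0 < μ ∧ μ ≤ 1 ∧
    ∀ k : ℤ, Odd k → ∀ W Q : ℕ, 1 ≤ Q → (Q : ℝ) ≤ Real.exp (μ * W) → |(k : ℝ)| ≤ Real.exp (μ * W) →
    ∀ (u : ℤ) (B : Finset ℤ), (∀ x ∈ B, |x - u| ≤ 2 ^ W ∧
      ∀ j ≤ W + W / 3, 2 ^ j ≤ Q * 3 ^ ones (wd k j x)) →
      (B.card : ℝ) ≤ C * Real.exp (W * (Real.log 2 * η0)) := by
  obtain ⟨C, μ, hC, hμ0, hμ1, h⟩ := count_height
  refine ⟨C, μ, hC, hμ0, hμ1, ?_⟩
  intro k hk W Q hQ1 hQ hkμ u B hB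
  have := h k hk W Q hQ1 hQ hkμ 1 le_rfl (one_le_pow₀ (by norm_num)) u B (by
    intro x hx
    obtain ⟨a, b⟩ := hB x hx
    refine ⟨a, b _ (by omega), ?_⟩
    have := b (4 * (W / 3)) (by omega)
    rw [one_mul]
    exact_mod_cast this)
  rwa [Real.one_rpow, div_one] at this

end Pool.Agent.N905.FM
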