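import Pool.Agent.N905.FM.Wt

/-! The size of the constant of a word; the classes of words. -/

set_option autoImplicit false

namespace Pool.Agent.N905.FM

open Finset Pool.Agent.TH930.EBQ

lemma cw_le_max (u : List Bool) : ∀ (s M : ℕ), (∀ t ≤ u.length, 2 ^ (s + t) * 3 ^ ones (u.drop t) ≤ M) →
    2 ^ s * cw u ≤ u.length * M := by
  induction u with
  | nil => intro s M _; simp
  | cons b v ih =>
    intro s M h
    have h1 := ih (s + 1) M (by
      intro t ht
      have := h (t + 1) (by simpa using ht)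
      rw [List.drop_succ_cons] at this
      rwa [show s + 1 + t = s + (t + 1) by ring])
    have h0 := h 0 (Nat.zero_le _)
    rw [add_zero, List.drop_zero] at h0
    rw [List.length_cons]
    cases b
    · rw [cw_cons_false]
      calc 2 ^ s * (2 * cw v) = 2 ^ (s + 1) * cw v := by ring
        _ ≤ v.length * M := h1
        _ ≤ _ := Nat.mul_le_mul_right _ (by omega)
    · rw [cw_cons_true]
      rw [ones_cons_true] at h0
      have h2 : 2 ^ s * 3 ^ ones v ≤ M := by
        refine le_trans ?_ h0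
        exact Nat.mul_le_mul_left _ (Nat.pow_le_pow_right (by norm_num) (by omega))
      calc 2 ^ s * (3 ^ ones v + 2 * cw v) = 2 ^ s * 3 ^ ones v + 2 ^ (s + 1) * cw v := by ring
        _ ≤ M + v.length * M := add_le_add h2 h1
        _ = _ := by ring

lemma exists_split (u : List Bool) : ∃ t ≤ u.length, cw u ≤ u.length * (2 ^ t * 3 ^ ones (u.drop t)) ∧
    2 ^ u.length ≤ 2 ^ t * 3 ^ ones (u.drop t) := by
  obtain ⟨t, ht, hmax⟩ := Finset.exists_max_image (range (u.length + 1))
    (fun t => 2 ^ t * 3 ^ ones (u.drop t)) ⟨0, by simp⟩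
  rw [mem_range] at ht
  refine ⟨t, by omega, ?_, ?_⟩
  · have := cw_le_max u 0 (2 ^ t * 3 ^ ones (u.drop t)) (by
      intro s hs
      rw [zero_add]
      exact hmax s (by rw [mem_range]; omega))
    simpa using this
  · have := hmax u.length (by rw [mem_range]; omega)
    simpa using this

/-- the place of the split -/
noncomputable def spl (u : List Bool) : ℕ := Classical.choose (exists_split u)

lemma spl_spec (u : List Bool) : spl u ≤ u.length ∧
    cw u ≤ u.length * (2 ^ spl u * 3 ^ ones (u.drop (spl u))) ∧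
    2 ^ u.length ≤ 2 ^ spl u * 3 ^ ones (u.drop (spl u)) :=
  Classical.choose_spec (exists_split u)

/-- the label of a word -/
noncomputable def lab (u : List Bool) : ℕ × (ℕ × ℕ) :=
  (spl u, (ones (u.take (spl u)), ones (u.drop (spl u))))

/-- the class of a label -/
noncomputable def cls (l : ℕ) (q : ℕ × (ℕ × ℕ)) : Finset (List Bool) := by
  classical
  exact (words l).filter (fun u => lab u = q)

lemma mem_cls {l : ℕ} {q : ℕ × (ℕ × ℕ)} {u : List Bool} : u ∈ cls l q ↔ u.length = l ∧ lab u = q := by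
  classical
  unfold cls
  rw [mem_filter, mem_words]

lemma cls_spec {l t r r' : ℕ} {u : List Bool} (h : u ∈ cls l (t, (r, r'))) :
    u.length = l ∧ ones u = r + r' ∧ t ≤ l ∧ r ≤ t ∧ r' ≤ l - t ∧
    wg t u = ((61 : ℝ) / 103) ^ r * (42 / 103) ^ (t - r) * ((65 / 99) ^ r' * (34 / 99) ^ (l - t - r')) ∧
    cw u ≤ l * (2 ^ t * 3 ^ r') ∧ 2 ^ l ≤ 2 ^ t * 3 ^ r' := by
  rw [mem_cls] at h
  obtain ⟨h1, h2⟩ := h
  unfold lab at h2
  rw [Prod.mk.injEq, Prod.mk.injEq] at h2
  obtain ⟨e1, e2, e3⟩ := h2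
  obtain ⟨s1, s2, s3⟩ := spl_spec u
  rw [e1, h1] at s1 s2
  rw [e1] at s3 e2 e3
  rw [e3] at s2 s3
  rw [h1] at s3
  have h4 := ones_le_length (u.take t)
  have h5 := ones_le_length (u.drop t)
  rw [List.length_take, h1, min_eq_left s1, e2] at h4
  rw [List.length_drop, h1, e3] at h5
  refine ⟨h1, ?_, s1, h4, h5, ?_, s2, s3⟩
  · rw [← e2, ← e3, ← ones_append, List.take_append_drop]
  · rw [wg_eq t u (by omega), e2, e3, h1]

end Pool.Agent.N905.FM
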