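import Pool.Agent.N905.FM.Energy

/-! The recursion for two letters. -/

set_option autoImplicit false

namespace Pool.Agent.N905.FM

open Finset Pool.Agent.TH930.EBQ

/-- weight and residue of a word of length two -/
def cL (P Q : ℕ) (v : List Bool) : ℕ := cN P Q (v.headD false, v.tail.headD false)

/-- residue -/
def rL (σ : ℕ) (v : List Bool) : ℕ := rN σ (v.headD false, v.tail.headD false)

lemma lsum (f : List Bool → ℝ) (g : Bool × Bool → ℕ) (h : ∀ x1 x2, f [x1, x2] = (g (x1, x2) : ℝ)) :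
    ∑ v ∈ words 2, f v = (((prs.map g).sum : ℕ) : ℝ) := by
  rw [sum_words_two', h, h, h, h]
  simp [prs]
  ring

lemma TN_eq (P Q σa σb σc σd κ : ℕ) :
    ∑ x ∈ words 2, ∑ y ∈ words 2, ∑ z ∈ words 2, ∑ w ∈ words 2,
      (if (rL σa x + rL σb y + 3 * rL σc z + 3 * rL σd w + κ) % 4 = 0 then
        (cL P Q x : ℝ) * cL P Q y * cL P Q z * cL P Q w else 0) = (TN P Q σa σb σc σd κ : ℝ) := by
  unfold TN
  apply lsum
  intro x1 x2
  apply lsum
  intro y1 y2
  apply lsum
  intro z1 z2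
  apply lsum
  intro w1 w2
  change (if (rN σa (x1, x2) + rN σb (y1, y2) + 3 * rN σc (z1, z2) + 3 * rN σd (w1, w2) + κ) % 4 = 0
    then (cN P Q (x1, x2) : ℝ) * cN P Q (y1, y2) * cN P Q (z1, z2) * cN P Q (w1, w2) else 0) = _
  by_cases h : (rN σa (x1, x2) + rN σb (y1, y2) + 3 * rN σc (z1, z2) + 3 * rN σd (w1, w2) + κ) % 4 = 0
  · rw [if_pos h, if_pos h]; push_cast; ring
  · rw [if_neg h, if_neg h]; simp

lemma pow3 (j : ℕ) : (3 : ℤ) ^ j % 4 = 1 ∨ (3 : ℤ) ^ j % 4 = 3 := by
  induction j with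
  | zero => left; rfl
  | succ j ih => rw [pow_succ]; omega

lemma sig_mem (m : ℕ) : 3 ^ (m - 1) % 4 ∈ [1, 3] := by
  have h := pow3 (m - 1)
  have h2 : ((3 ^ (m - 1) : ℕ) : ℤ) = (3 : ℤ) ^ (m - 1) := by push_cast; rfl
  have h3 : 3 ^ (m - 1) % 4 = 1 ∨ 3 ^ (m - 1) % 4 = 3 := by omega
  rcases h3 with h | h <;> simp [h]

lemma Ymod (m : ℕ) {x : List Bool} (hx : x ∈ words 2) (hm : ones x ≤ m) :
    (4 : ℤ) ∣ (3 : ℤ) ^ (m - ones x) * cw x - (rL (3 ^ (m - 1) % 4) x : ℕ) := by
  have hl := mem_words.1 hx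
  have h2 : ((3 ^ (m - 1) : ℕ) : ℤ) = (3 : ℤ) ^ (m - 1) := by push_cast; rfl
  match x, hl, hm with
  | [a, b], _, hm =>
    cases a <;> cases b
    · simp [cw, ones, rL, rN]
    · have h1 : ones [false, true] = 1 := rfl
      have h3 : cw [false, true] = 2 := rfl
      rw [h1, h3]
      have h4 := pow3 (m - 1)
      unfold rL rN
      simp only [List.headD_cons, List.tail_cons, Bool.false_eq_true, if_false, if_true]
      push_cast
      omega
    · have h1 : ones [true, false] = 1 := rfl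
      have h3 : cw [true, false] = 1 := rfl
      rw [h1, h3]
      have h4 := pow3 (m - 1)
      unfold rL rN
      simp only [List.headD_cons, List.tail_cons, Bool.false_eq_true, if_false, if_true]
      push_cast
      omega
    · have h1 : ones [true, true] = 2 := rfl
      have h3 : cw [true, true] = 5 := rfl
      rw [h1] at hm
      rw [h1, h3]
      have h4 := pow3 (m - 2)
      have h5 : (3 : ℤ) ^ (m - 1) = 3 * 3 ^ (m - 2) := by
        rw [← pow_succ']; congr 1; omega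
      unfold rL rN
      simp only [List.headD_cons, List.tail_cons, if_true]
      push_cast
      rw [h5]
      omega

open Classical in
/-- two letters -/
theorem step_two (P Q TB : ℕ) (hPQ : 0 < P + Q)
    (hT : ∀ σa ∈ [1, 3], ∀ σb ∈ [1, 3], ∀ σc ∈ [1, 3], ∀ σd ∈ [1, 3], ∀ κ ∈ [0, 1, 2, 3],
      TN P Q σa σb σc σd κ ≤ TB)
    (W W' : List Bool → ℝ) (n : ℕ)
    (hW : ∀ a b : Bool, ∀ v ∈ words n, W (a :: b :: v) =
      (if a then (P : ℝ) / (P + Q) else Q / (P + Q)) * ((if b then (P : ℝ) / (P + Q) else Q / (P + Q)) * W' v))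
    (hW' : ∀ v, 0 ≤ W' v) {M : ℝ} (hM : 0 ≤ M)
    (hF : ∀ κ ma mb mc md, F W' n κ ma mb mc md ≤ M) (κ : ℤ) (ma mb mc md : ℕ) :
    F W (n + 2) κ ma mb mc md ≤ (TB : ℝ) / (P + Q) ^ 8 * M := by
  have hD : (0 : ℝ) < P + Q := by exact_mod_cast hPQ
  set c : List Bool → ℝ := fun u => (cL P Q u : ℝ) / (P + Q) ^ 2 with hc
  have h := step W W' c 2 n (by
    intro u hu v hv
    have hl := mem_words.1 hu
    match u, hl with
    | [a, b], _ =>
      rw [List.cons_append, List.cons_append, List.nil_append, hW a b v hv, hc]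
      simp only [cL, cN, List.headD_cons, List.tail_cons]
      cases a <;> cases b <;> simp <;> field_simp) (fun u => by rw [hc]; positivity) hW' hM hF κ ma mb mc md
      (ρ := (TB : ℝ) / (P + Q) ^ 8) (by
    set σa := 3 ^ (ma - 1) % 4 with hσa
    set σb := 3 ^ (mb - 1) % 4 with hσb
    set σc := 3 ^ (mc - 1) % 4 with hσc
    set σd := 3 ^ (md - 1) % 4 with hσd
    set κ' : ℕ := ((-κ) % 4).toNat with hκ'
    have hκ1 : ((κ' : ℕ) : ℤ) = (-κ) % 4 := Int.toNat_of_nonneg (Int.emod_nonneg _ (by norm_num))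
    have hκ2 : κ' ∈ [0, 1, 2, 3] := by
      have : κ' < 4 := by omega
      interval_cases κ' <;> simp
    have hTT := hT σa (sig_mem ma) σb (sig_mem mb) σc (sig_mem mc) σd (sig_mem md) κ' hκ2
    have hTR : (TN P Q σa σb σc σd κ' : ℝ) ≤ TB := by exact_mod_cast hTT
    rw [← TN_eq] at hTR
    refine le_trans ?_ (div_le_div_of_nonneg_right hTR (by positivity))
    rw [sum_div]
    apply sum_le_sum; intro x hx
    rw [sum_div]
    apply sum_le_sum; intro y hy
    rw [sum_div]
    apply sum_le_sum; intro z hz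
    rw [sum_div]
    apply sum_le_sum; intro w hw
    by_cases hcond : (ones x ≤ ma ∧ ones y ≤ mb ∧ ones z ≤ mc ∧ ones w ≤ md) ∧ (2 : ℤ) ^ 2 ∣
        (3 : ℤ) ^ (ma - ones x) * cw x + 3 ^ (mb - ones y) * cw y - 3 ^ (mc - ones z) * cw z -
          3 ^ (md - ones w) * cw w - κ
    · rw [if_pos hcond, if_pos]
      · rw [hc]
        apply le_of_eq
        simp only
        field_simp
      · obtain ⟨⟨h1, h2, h3, h4⟩, h5⟩ := hcond
        have a1 := Ymod ma hx h1
        have a2 := Ymod mb hy h2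
        have a3 := Ymod mc hz h3
        have a4 := Ymod md hw h4
        rw [← hσa] at a1
        rw [← hσb] at a2
        rw [← hσc] at a3
        rw [← hσd] at a4
        have e4 : (2 : ℤ) ^ 2 = 4 := by norm_num
        rw [e4] at h5
        set X := (3 : ℤ) ^ (ma - ones x) * cw x
        set Y := (3 : ℤ) ^ (mb - ones y) * cw y
        set Z := (3 : ℤ) ^ (mc - ones z) * cw z
        set V := (3 : ℤ) ^ (md - ones w) * cw w
        omega
    · rw [if_neg hcond]
      split_ifs <;> positivity)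
  rwa [add_comm] at h

end Pool.Agent.N905.FM
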