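import Pool.Agent.N905.FM.Two
import Pool.Agent.N905.FM.Quad

/-! The number of additive quadruples in a class of words. -/

set_option autoImplicit false

namespace Pool.Agent.N905.FM

open Finset Pool.Agent.TH930.EBQ

/-- the weights: the first `t` letters have the probabilities `61/103`, `42/103`, the others `65/99`,
`34/99` -/
noncomputable def wg : ℕ → List Bool → ℝ
  | _, [] => 1
  | 0, (b :: v) => (if b then (65 : ℝ) / 99 else 34 / 99) * wg 0 v
  | (t + 1), (b :: v) => (if b then (61 : ℝ) / 103 else 42 / 103) * wg t v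

lemma wg_nil (t : ℕ) : wg t [] = 1 := by cases t <;> rfl

lemma wg_pos (t : ℕ) (v : List Bool) : 0 < wg t v := by
  induction v generalizing t with
  | nil => rw [wg_nil]; exact one_pos
  | cons b v ih =>
    cases t with
    | zero =>
      have := ih 0
      simp only [wg]
      cases b <;> simp <;> positivity
    | succ t =>
      have := ih t
      simp only [wg]
      cases b <;> simp <;> positivity

lemma wg_zero_eq (v : List Bool) :
    wg 0 v = ((65 : ℝ) / 99) ^ ones v * (34 / 99) ^ (v.length - ones v) := by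
  induction v with
  | nil => simp [wg]
  | cons b v ih =>
    have h1 := ones_le_length v
    simp only [wg]
    rw [ih]
    cases b
    · simp only [Bool.false_eq_true, if_false, ones_cons_false, List.length_cons]
      rw [show v.length + 1 - ones v = (v.length - ones v) + 1 by omega, pow_succ (34 / 99 : ℝ)]
      ring
    · simp only [if_true, ones_cons_true, List.length_cons]
      rw [show v.length + 1 - (ones v + 1) = v.length - ones v by omega, pow_succ (65 / 99 : ℝ)]
      ring

lemma wg_eq (t : ℕ) (v : List Bool) (ht : t ≤ v.length) :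
    wg t v = ((61 : ℝ) / 103) ^ ones (v.take t) * (42 / 103) ^ (t - ones (v.take t)) *
      ((65 / 99) ^ ones (v.drop t) * (34 / 99) ^ (v.length - t - ones (v.drop t))) := by
  induction t generalizing v with
  | zero =>
    rw [wg_zero_eq]
    simp
  | succ t ih =>
    cases v with
    | nil => simp at ht
    | cons b v =>
      have ht' : t ≤ v.length := by simpa using ht
      simp only [wg]
      rw [ih v ht']
      have h1 := ones_le_length (v.take t)
      rw [List.length_take, min_eq_left ht'] at h1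
      simp only [List.take_succ_cons, List.drop_succ_cons, List.length_cons, Nat.add_sub_add_right]
      cases b
      · simp only [Bool.false_eq_true, if_false, ones_cons_false]
        rw [show t + 1 - ones (v.take t) = (t - ones (v.take t)) + 1 by omega, pow_succ (42 / 103 : ℝ)]
        ring
      · simp only [if_true, ones_cons_true]
        rw [show t + 1 - (ones (v.take t) + 1) = t - ones (v.take t) by omega, pow_succ (61 / 103 : ℝ)]
        ring

/-- the constants -/
noncomputable def ρ1 : ℝ := 3172552507613353 / 103 ^ 8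

/-- the constants -/
noncomputable def ρ2 : ℝ := 2342410350384521 / 99 ^ 8

lemma ρ1_pos : 0 < ρ1 := by unfold ρ1; positivity

lemma ρ2_pos : 0 < ρ2 := by unfold ρ2; positivity

lemma F_bound : ∀ n t : ℕ, t ≤ n → ∀ (κ : ℤ) (ma mb mc md : ℕ),
    F (wg t) n κ ma mb mc md ≤ ρ1 ^ (t / 2) * ρ2 ^ ((n - t) / 2) := by
  have h1 := ρ1_pos
  have h2 := ρ2_pos
  intro n
  induction n using Nat.strong_induction_on with
  | _ n ih =>
  intro t ht κ ma mb mc md
  match n, t, ih, ht with
  | 0, 0, _, _ =>
    have h := F_zero (wg 0) (fun v => (wg_pos 0 v).le) (by rw [wg_nil]) κ ma mb mc md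
    simpa using h
  | 1, 0, ih, _ =>
    have h := step_one (wg 0) (wg 0) (fun b => if b then (65 : ℝ) / 99 else 34 / 99) 0
      (fun b v _ => by simp only [wg]) (fun b => by split_ifs <;> norm_num) (by norm_num)
      (fun v => (wg_pos 0 v).le) (M := 1) (by norm_num) (fun κ ma mb mc md => by
        have := ih 0 (by norm_num) 0 le_rfl κ ma mb mc md
        simpa using this) κ ma mb mc md
    simpa using h
  | (n + 1), 1, ih, _ =>
    have h := step_one (wg 1) (wg 0) (fun b => if b then (61 : ℝ) / 103 else 42 / 103) n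
      (fun b v _ => by simp only [wg]) (fun b => by split_ifs <;> norm_num) (by norm_num)
      (fun v => (wg_pos 0 v).le) (M := ρ2 ^ (n / 2)) (by positivity) (fun κ ma mb mc md => by
        have := ih n (by omega) 0 (Nat.zero_le _) κ ma mb mc md
        simpa using this) κ ma mb mc md
    simpa using h
  | (n + 2), 0, ih, _ =>
    have h := step_two 65 34 2342410350384521 (by norm_num) TN2 (wg 0) (wg 0) n
      (fun a b v _ => by simp only [wg]; norm_num) (fun v => (wg_pos 0 v).le) (M := ρ2 ^ (n / 2))
      (by positivity) (fun κ ma mb mc md => by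
        have := ih n (by omega) 0 (Nat.zero_le _) κ ma mb mc md
        simpa using this) κ ma mb mc md
    refine h.trans (le_of_eq ?_)
    have e1 : (n + 2 - 0) / 2 = n / 2 + 1 := by omega
    rw [e1, pow_succ]
    unfold ρ2
    norm_num
    ring
  | (n + 2), (t + 2), ih, ht =>
    have h := step_two 61 42 3172552507613353 (by norm_num) TN1 (wg (t + 2)) (wg t) n
      (fun a b v _ => by simp only [wg]; norm_num) (fun v => (wg_pos t v).le)
      (M := ρ1 ^ (t / 2) * ρ2 ^ ((n - t) / 2))
      (by positivity) (fun κ ma mb mc md => ih n (by omega) t (by omega) κ ma mb mc md) κ ma mb mc md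
    refine h.trans (le_of_eq ?_)
    have e1 : (t + 2) / 2 = t / 2 + 1 := by omega
    have e2 : n + 2 - (t + 2) = n - t := by omega
    rw [e1, e2, pow_succ ρ1]
    have e3 : ((3172552507613353 : ℕ) : ℝ) / ((61 : ℕ) + (42 : ℕ)) ^ 8 = ρ1 := by
      unfold ρ1; norm_num
    rw [e3]
    ring

open Classical in
/-- the number of additive quadruples in a class -/
theorem energy (C : Finset (List Bool)) (l a t : ℕ) (w : ℝ)
    (hC : ∀ u ∈ C, u.length = l ∧ ones u = a ∧ wg t u = w) (ht : t ≤ l) :
    (((qd C).filter (fun q => dq (fun v => (cw v : ℤ)) q = 0)).card : ℝ) * w ^ 4 ≤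
      ρ1 ^ (t / 2) * ρ2 ^ ((l - t) / 2) := by
  refine le_trans ?_ (F_bound l t ht 0 a a a a)
  set Wd := (words l ×ˢ words l) ×ˢ (words l ×ˢ words l) with hWd
  have e1 : F (wg t) l 0 a a a a = ∑ q ∈ Wd,
      if (ones q.1.1 = a ∧ ones q.1.2 = a ∧ ones q.2.1 = a ∧ ones q.2.2 = a) ∧
        (2 : ℤ) ^ l ∣ (cw q.1.1 : ℤ) + cw q.1.2 - cw q.2.1 - cw q.2.2 - 0 then
        wg t q.1.1 * wg t q.1.2 * wg t q.2.1 * wg t q.2.2 else 0 := by
    unfold F
    rw [hWd, sum_product, sum_product]
    apply sum_congr rfl; intro x _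
    apply sum_congr rfl; intro y _
    rw [sum_product]
  rw [e1]
  set Z := (qd C).filter (fun q => dq (fun v => (cw v : ℤ)) q = 0) with hZ
  have e2 : (Z.card : ℝ) * w ^ 4 = ∑ q ∈ Z,
      if (ones q.1.1 = a ∧ ones q.1.2 = a ∧ ones q.2.1 = a ∧ ones q.2.2 = a) ∧
        (2 : ℤ) ^ l ∣ (cw q.1.1 : ℤ) + cw q.1.2 - cw q.2.1 - cw q.2.2 - 0 then
        wg t q.1.1 * wg t q.1.2 * wg t q.2.1 * wg t q.2.2 else 0 := by
    rw [← nsmul_eq_mul, ← sum_const]
    apply sum_congr rfl
    intro q hq
    rw [hZ, mem_filter] at hq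
    obtain ⟨hq1, hq2⟩ := hq
    unfold qd at hq1
    simp only [mem_product] at hq1
    obtain ⟨⟨c1, c2⟩, c3, c4⟩ := hq1
    obtain ⟨-, a1, b1⟩ := hC _ c1
    obtain ⟨-, a2, b2⟩ := hC _ c2
    obtain ⟨-, a3, b3⟩ := hC _ c3
    obtain ⟨-, a4, b4⟩ := hC _ c4
    rw [if_pos, b1, b2, b3, b4]
    · ring
    · refine ⟨⟨a1, a2, a3, a4⟩, ?_⟩
      unfold dq at hq2
      simp only at hq2
      have : (cw q.1.1 : ℤ) + cw q.1.2 - cw q.2.1 - cw q.2.2 - 0 = 0 := by omega
      rw [this]
      exact dvd_zero _
  rw [e2]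
  apply sum_le_sum_of_subset_of_nonneg
  · intro q hq
    rw [hZ, mem_filter] at hq
    obtain ⟨hq1, -⟩ := hq
    unfold qd at hq1
    simp only [mem_product] at hq1
    obtain ⟨⟨c1, c2⟩, c3, c4⟩ := hq1
    rw [hWd]
    simp only [mem_product, mem_words]
    exact ⟨⟨(hC _ c1).1, (hC _ c2).1⟩, (hC _ c3).1, (hC _ c4).1⟩
  · intro q _ _
    have p1 := wg_pos t q.1.1
    have p2 := wg_pos t q.1.2
    have p3 := wg_pos t q.2.1
    have p4 := wg_pos t q.2.2
    split_ifs <;> positivity

end Pool.Agent.N905.FM
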